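import Pool.Agent.Helper331.N3i

set_option autoImplicit false

open Set Filter Topology unitInterval
open scoped Manifold ContDiff

namespace Pool.Agent.H105Z.N5

open Pool.Agent.Helper331

/-- the band map with centre `c` and profile `(A, B)` -/
noncomputable def PhC (c : ℂ) (A B : ℝ → ℝ) (x : ℝ × ℝ) : ℂ × ℂ :=
  (c + A x.2 * cis x.1, c^2 + 2 * c * (A x.2 * cis x.1) + B x.2 * cis (2 * x.1))

/-- the discriminant -/
noncomputable def OmC (c : ℂ) (y : ℂ × ℂ) : ℂ := y.2 - 2 * c * y.1 + c^2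

theorem OmC_continuous (c : ℂ) : Continuous (OmC c) := by unfold OmC; fun_prop

theorem OmC_PhC (c : ℂ) (A B : ℝ → ℝ) (x : ℝ × ℝ) : OmC c (PhC c A B x) = B x.2 * cis (2 * x.1) := by
  simp only [OmC, PhC]; ring

theorem PhC_contDiff (c : ℂ) {A B : ℝ → ℝ} (hA : ContDiff ℝ ∞ A) (hB : ContDiff ℝ ∞ B) :
    ContDiff ℝ ∞ (PhC c A B) := by
  have h1 : ContDiff ℝ ∞ (fun x : ℝ × ℝ => ((A x.2 : ℝ) : ℂ)) :=
    Complex.ofRealCLM.contDiff.comp (hA.comp contDiff_snd)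
  have h2 : ContDiff ℝ ∞ (fun x : ℝ × ℝ => ((B x.2 : ℝ) : ℂ)) :=
    Complex.ofRealCLM.contDiff.comp (hB.comp contDiff_snd)
  have h3 : ContDiff ℝ ∞ (fun x : ℝ × ℝ => cis x.1) := cis_contDiff.comp contDiff_fst
  have h4 : ContDiff ℝ ∞ (fun x : ℝ × ℝ => cis (2 * x.1)) :=
    cis_contDiff.comp (contDiff_const.mul contDiff_fst)
  exact (contDiff_const.add (h1.mul h3)).prodMk
    ((contDiff_const.add (contDiff_const.mul (h1.mul h3))).add (h2.mul h4))

/-- requirements on a profile -/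
structure ProfC (A B : ℝ → ℝ) (ρ : ℝ) : Prop where
  hA : ContDiff ℝ ∞ A
  hB : ContDiff ℝ ∞ B
  odd : ∀ a, A (-a) = -A a
  even : ∀ a, B (-a) = B a
  pos : ∀ a, |a| ≤ ρ → 0 < B a
  inj : ∀ a b, |a| ≤ ρ → |b| ≤ ρ → A a = A b → B a = B b → a = b
  imm : ∀ a, |a| < ρ → deriv A a ≠ 0 ∨ deriv B a ≠ 0
  rho_pos : 0 < ρ

variable {c : ℂ} {A B : ℝ → ℝ} {ρ : ℝ}

theorem ProfC.continuous (h : ProfC A B ρ) : Continuous (PhC c A B) :=
  (PhC_contDiff c h.hA h.hB).continuous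

theorem ProfC.flip (h : ProfC A B ρ) (x : ℝ × ℝ) : PhC c A B (fl x) = PhC c A B x := by
  simp only [PhC, fl, h.odd, h.even]
  have e : 2 * (x.1 + Real.pi) = 2 * x.1 + Real.pi + Real.pi := by ring
  rw [e, cis_add_pi, cis_add_pi, cis_add_pi]
  push_cast
  simp

theorem ProfC.eq_of_angle (h : ProfC A B ρ) {x y : ℝ × ℝ} (hx : |x.2| ≤ ρ) (hy : |y.2| ≤ ρ)
    (h1 : x.1 = y.1) (he : PhC c A B x = PhC c A B y) : x = y := by
  obtain ⟨s, a⟩ := x
  obtain ⟨t, b⟩ := y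
  simp only at hx hy h1
  subst h1
  have hO : OmC c (PhC c A B (s, a)) = OmC c (PhC c A B (s, b)) := by rw [he]
  rw [OmC_PhC, OmC_PhC] at hO
  simp only at hO
  have hB : (B a : ℂ) = B b := mul_right_cancel₀ (cis_ne_zero _) hO
  have h2 := congrArg Prod.fst he
  simp only [PhC] at h2
  have hA : (A a : ℂ) = A b := mul_right_cancel₀ (cis_ne_zero _) (add_left_cancel h2)
  have : a = b := h.inj a b hx hy (by exact_mod_cast hA) (by exact_mod_cast hB)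
  rw [this]

theorem ProfC.angle (h : ProfC A B ρ) {x y : ℝ × ℝ} (hx : |x.2| ≤ ρ) (hy : |y.2| ≤ ρ)
    (he : PhC c A B x = PhC c A B y) : ∃ n : ℤ, y.1 = x.1 + n * Real.pi := by
  have hO : OmC c (PhC c A B x) = OmC c (PhC c A B y) := by rw [he]
  rw [OmC_PhC, OmC_PhC] at hO
  have hn := congrArg norm hO
  rw [norm_mul, norm_mul, norm_cis, norm_cis, Complex.norm_real, Complex.norm_real,
    Real.norm_of_nonneg (h.pos _ hx).le, Real.norm_of_nonneg (h.pos _ hy).le, mul_one, mul_one] at hn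
  rw [hn] at hO
  have hne : ((B y.2 : ℝ) : ℂ) ≠ 0 := by exact_mod_cast (h.pos _ hy).ne'
  obtain ⟨n, hn⟩ := cis_eq_iff (mul_left_cancel₀ hne hO)
  refine ⟨-n, ?_⟩
  push_cast
  linarith

theorem ProfC.injOn (h : ProfC A B ρ) (θ : ℝ) :
    InjOn (PhC c A B) (Icc (θ - Real.pi/4) (θ + Real.pi/4) ×ˢ Icc (-ρ) ρ) := by
  intro x hx y hy he
  have hx2 : |x.2| ≤ ρ := abs_le.2 hx.2
  have hy2 : |y.2| ≤ ρ := abs_le.2 hy.2
  obtain ⟨n, hn⟩ := h.angle hx2 hy2 he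
  have hpi := Real.pi_pos
  have h1 := hx.1.1
  have h2 := hx.1.2
  have h3 := hy.1.1
  have h4 := hy.1.2
  have hn0 : n = 0 := by
    have a1 : (n : ℝ) * Real.pi < 1 * Real.pi := by linarith
    have a2 : (-1 : ℝ) * Real.pi < n * Real.pi := by linarith
    have b1 : (n : ℝ) < 1 := lt_of_mul_lt_mul_right a1 hpi.le
    have b2 : (-1 : ℝ) < n := lt_of_mul_lt_mul_right a2 hpi.le
    have c1 : n < 1 := by exact_mod_cast b1
    have c2 : -1 < n := by exact_mod_cast b2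
    omega
  rw [hn0] at hn
  exact h.eq_of_angle hx2 hy2 (by simpa using hn.symm) he

/-- selection of the representative with angle close to `θ`. -/
theorem ProfC.select (h : ProfC A B ρ) {θ : ℝ} {x : ℝ × ℝ} (hx : |x.2| < ρ)
    (hre : 0 < (OmC c (PhC c A B x) * cis (-(2 * θ))).re) :
    ∃ x' : ℝ × ℝ, x'.1 ∈ Ioo (θ - Real.pi/4) (θ + Real.pi/4) ∧ |x'.2| < ρ ∧
      PhC c A B x' = PhC c A B x := by
  have hpi := Real.pi_pos
  -- general: angles differ by multiples of pi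
  have key : ∀ (n : ℤ), ∃ x' : ℝ × ℝ, x'.1 = x.1 + n * Real.pi ∧ |x'.2| < ρ ∧
      PhC c A B x' = PhC c A B x := by
    intro n
    induction n using Int.induction_on with
    | zero => exact ⟨x, by simp, hx, rfl⟩
    | succ n ih =>
      obtain ⟨x', h1, h2, h3⟩ := ih
      refine ⟨fl x', ?_, ?_, ?_⟩
      · simp only [fl]; rw [h1]; push_cast; ring
      · simp only [fl]; rw [abs_neg]; exact h2
      · rw [h.flip]; exact h3
    | pred n ih =>
      obtain ⟨x', h1, h2, h3⟩ := ih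
      refine ⟨(x'.1 - Real.pi, -x'.2), ?_, ?_, ?_⟩
      · simp only; rw [h1]; push_cast; ring
      · simp only; rw [abs_neg]; exact h2
      · rw [← h3, ← h.flip (c := c) (x'.1 - Real.pi, -x'.2)]
        congr 1
        simp [fl]
  obtain ⟨n, hn, -⟩ := existsUnique_add_zsmul_mem_Ioc hpi x.1 (θ - Real.pi/2)
  rw [zsmul_eq_mul] at hn
  obtain ⟨x', h1, h2, h3⟩ := key n
  refine ⟨x', ?_, h2, h3⟩
  rw [← h3, OmC_PhC, mul_assoc, ← cis_add, Complex.re_ofReal_mul, cis_re] at hre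
  have hB := h.pos _ h2.le
  have hcos : 0 < Real.cos (2 * (x'.1 - θ)) := by
    have e : 2 * x'.1 + -(2 * θ) = 2 * (x'.1 - θ) := by ring
    rw [e] at hre
    exact (pos_iff_pos_of_mul_pos hre).1 hB
  rw [← h1] at hn
  have hn1 : -(Real.pi/2) < x'.1 - θ := by have := hn.1; linarith
  have hn2 : x'.1 - θ ≤ Real.pi/2 := by have := hn.2; linarith
  constructor
  · by_contra hc
    push Not at hc
    have : Real.cos (2 * (x'.1 - θ)) ≤ 0 := by
      rw [← Real.cos_neg]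
      apply Real.cos_nonpos_of_pi_div_two_le_of_le <;> linarith
    linarith
  · by_contra hc
    push Not at hc
    have : Real.cos (2 * (x'.1 - θ)) ≤ 0 := by
      apply Real.cos_nonpos_of_pi_div_two_le_of_le <;> linarith
    linarith

/-- openness of the band map onto a set `M`. -/
theorem ProfC.hopen (h : ProfC A B ρ) {M W : Set (ℂ × ℂ)} (hW : IsOpen W)
    (hMW : ∀ y, y ∈ M ∩ W ↔ ∃ x : ℝ × ℝ, |x.2| < ρ ∧ PhC c A B x = y) (θ : ℝ) :
    ∀ O ⊆ Bx θ ρ, IsOpen O → ∃ W' : Set (ℂ × ℂ), IsOpen W' ∧ PhC c A B '' O = M ∩ W' := by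
  intro O hO hOo
  have hpi := Real.pi_pos
  set K : Set (ℝ × ℝ) := Icc (θ - Real.pi/4) (θ + Real.pi/4) ×ˢ Icc (-ρ) ρ with hK
  have hKc : IsCompact K := isCompact_Icc.prod isCompact_Icc
  have hOK : O ⊆ K := fun x hx =>
    ⟨Ioo_subset_Icc_self (hO hx).1, Ioo_subset_Icc_self (hO hx).2⟩
  have hclosed : IsClosed (PhC c A B '' (K \ O)) :=
    ((hKc.diff hOo).image h.continuous).isClosed
  refine ⟨W ∩ {y | 0 < (OmC c y * cis (-(2 * θ))).re} ∩ (PhC c A B '' (K \ O))ᶜ, ?_, ?_⟩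
  · refine (hW.inter ?_).inter hclosed.isOpen_compl
    apply isOpen_lt continuous_const
    exact Complex.continuous_re.comp ((OmC_continuous c).mul continuous_const)
  · ext y
    constructor
    · rintro ⟨x, hx, rfl⟩
      have hxB := hO hx
      have hx2 : |x.2| < ρ := abs_lt.2 hxB.2
      have hM := (hMW (PhC c A B x)).2 ⟨x, hx2, rfl⟩
      refine ⟨hM.1, ⟨hM.2, ?_⟩, ?_⟩
      · change 0 < (OmC c (PhC c A B x) * cis (-(2 * θ))).re
        rw [OmC_PhC, mul_assoc, ← cis_add, Complex.re_ofReal_mul, cis_re]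
        apply mul_pos (h.pos _ hx2.le)
        have e : 2 * x.1 + -(2 * θ) = 2 * (x.1 - θ) := by ring
        rw [e]
        have h1 := hxB.1.1
        have h2 := hxB.1.2
        apply Real.cos_pos_of_mem_Ioo
        constructor <;> linarith
      · rintro ⟨x', hx', hxx'⟩
        have := h.injOn θ hx'.1 (hOK hx) hxx'
        rw [this] at hx'
        exact hx'.2 hx
    · rintro ⟨hyM, ⟨hyW, hyre⟩, hyn⟩
      obtain ⟨x, hx, rfl⟩ := (hMW y).1 ⟨hyM, hyW⟩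
      obtain ⟨x', h1, h2, h3⟩ := h.select hx hyre
      by_cases hx'O : x' ∈ O
      · exact ⟨x', hx'O, h3⟩
      · exfalso
        apply hyn
        exact ⟨x', ⟨⟨Ioo_subset_Icc_self h1, abs_le.1 h2.le⟩, hx'O⟩, h3⟩

/-- the band map is an immersion -/
theorem ProfC.fderiv_inj (h : ProfC A B ρ) {x : ℝ × ℝ} (hx : |x.2| < ρ) :
    Function.Injective (fderiv ℝ (PhC c A B) x) := by
  have hdA : HasDerivAt A (deriv A x.2) x.2 := ((h.hA.differentiable (by simp)) x.2).hasDerivAt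
  have hdB : HasDerivAt B (deriv B x.2) x.2 := ((h.hB.differentiable (by simp)) x.2).hasDerivAt
  have hd := ((PhC_contDiff c h.hA h.hB).differentiable (by simp) x).hasFDerivAt
  rw [injective_iff_map_eq_zero]
  rintro ⟨u, v⟩ huv
  -- the curve x + r (u, v)
  have hline : HasDerivAt (fun r : ℝ => x + r • ((u, v) : ℝ × ℝ)) ((u, v) : ℝ × ℝ) 0 := by
    have := ((hasDerivAt_id (0:ℝ)).smul_const ((u, v) : ℝ × ℝ)).const_add x
    simpa using this
  have h0 : x + (0:ℝ) • ((u, v) : ℝ × ℝ) = x := by simp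
  have hcomp : HasDerivAt (fun r : ℝ => PhC c A B (x + r • ((u, v) : ℝ × ℝ))) 0 0 := by
    have hd' : HasFDerivAt (PhC c A B) (fderiv ℝ (PhC c A B) x) (x + (0:ℝ) • ((u, v) : ℝ × ℝ)) := by
      rw [h0]; exact hd
    have := hd'.comp_hasDerivAt (0:ℝ) hline
    rw [huv] at this
    exact this
  -- components
  have hl1 : HasDerivAt (fun r : ℝ => x.1 + r * u) u 0 := by
    simpa using ((hasDerivAt_id (0:ℝ)).mul_const u).const_add x.1
  have hl2 : HasDerivAt (fun r : ℝ => x.2 + r * v) v 0 := by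
    simpa using ((hasDerivAt_id (0:ℝ)).mul_const v).const_add x.2
  have hAr : HasDerivAt (fun r : ℝ => ((A (x.2 + r * v) : ℝ) : ℂ)) ((deriv A x.2 * v : ℝ) : ℂ) 0 := by
    have hA' : HasDerivAt A (deriv A x.2) (x.2 + 0 * v) := by simpa using hdA
    exact (HasDerivAt.comp (h₂ := A) (h := fun r : ℝ => x.2 + r * v) 0 hA' hl2).ofReal_comp
  have hBr : HasDerivAt (fun r : ℝ => ((B (x.2 + r * v) : ℝ) : ℂ)) ((deriv B x.2 * v : ℝ) : ℂ) 0 := by
    have hB' : HasDerivAt B (deriv B x.2) (x.2 + 0 * v) := by simpa using hdB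
    exact (HasDerivAt.comp (h₂ := B) (h := fun r : ℝ => x.2 + r * v) 0 hB' hl2).ofReal_comp
  have hc1 : HasDerivAt (fun r : ℝ => cis (x.1 + r * u)) (u • (Complex.I * cis x.1)) 0 := by
    have hc' : HasDerivAt cis (Complex.I * cis x.1) (x.1 + 0 * u) := by
      simpa using cis_hasDerivAt x.1
    exact HasDerivAt.scomp (h := fun r : ℝ => x.1 + r * u) 0 hc' hl1
  have hc2 : HasDerivAt (fun r : ℝ => cis (2 * (x.1 + r * u)))
      ((2 * u) • (Complex.I * cis (2 * x.1))) 0 := by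
    have hc' : HasDerivAt cis (Complex.I * cis (2 * x.1)) (2 * (x.1 + 0 * u)) := by
      simpa using cis_hasDerivAt (2 * x.1)
    exact HasDerivAt.scomp (h := fun r : ℝ => 2 * (x.1 + r * u)) 0 hc' (hl1.const_mul 2)
  have hf1 := (hAr.mul hc1).const_add (c : ℂ)
  have hO : HasDerivAt (fun r : ℝ => OmC c (PhC c A B (x + r • ((u, v) : ℝ × ℝ)))) 0 0 := by
    have hlin : HasFDerivAt (fun y : ℂ × ℂ => OmC c y)
        (ContinuousLinearMap.snd ℝ ℂ ℂ - (2 * (c : ℂ)) • ContinuousLinearMap.fst ℝ ℂ ℂ)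
        (PhC c A B (x + (0:ℝ) • ((u, v) : ℝ × ℝ))) := by
      have h5 := ((ContinuousLinearMap.snd ℝ ℂ ℂ
        - (2 * (c : ℂ)) • ContinuousLinearMap.fst ℝ ℂ ℂ).hasFDerivAt
          (x := PhC c A B (x + (0:ℝ) • ((u, v) : ℝ × ℝ)))).add_const ((c:ℂ)^2)
      exact h5
    have h6 := hlin.comp_hasDerivAt (0:ℝ) hcomp
    rw [map_zero] at h6
    exact h6
  have hfst : HasDerivAt (fun r : ℝ => (PhC c A B (x + r • ((u, v) : ℝ × ℝ))).1) 0 0 := by
    have h6 := (ContinuousLinearMap.fst ℝ ℂ ℂ).hasFDerivAt.comp_hasDerivAt (0:ℝ) hcomp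
    rw [map_zero] at h6
    exact h6
  have e1 : (fun r : ℝ => (PhC c A B (x + r • ((u, v) : ℝ × ℝ))).1)
      = fun r : ℝ => (c : ℂ) + ((A (x.2 + r * v) : ℝ) : ℂ) * cis (x.1 + r * u) := by
    funext r; simp [PhC]
  have e2 : (fun r : ℝ => OmC c (PhC c A B (x + r • ((u, v) : ℝ × ℝ))))
      = fun r : ℝ => ((B (x.2 + r * v) : ℝ) : ℂ) * cis (2 * (x.1 + r * u)) := by
    funext r; rw [OmC_PhC]; simp
  rw [e1] at hfst
  rw [e2] at hO
  have E1 := hfst.unique hf1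
  have E2 := hO.unique (hBr.mul hc2)
  simp only [zero_mul, add_zero, Complex.real_smul] at E1 E2
  have F1 : ((deriv A x.2 * v : ℝ) : ℂ) + ((A x.2 * u : ℝ) : ℂ) * Complex.I = 0 := by
    have : (((deriv A x.2 * v : ℝ) : ℂ) + ((A x.2 * u : ℝ) : ℂ) * Complex.I) * cis x.1 = 0 := by
      rw [E1]; push_cast; ring
    exact (mul_eq_zero.1 this).resolve_right (cis_ne_zero _)
  have F2 : ((deriv B x.2 * v : ℝ) : ℂ) + ((B x.2 * (2 * u) : ℝ) : ℂ) * Complex.I = 0 := by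
    have : (((deriv B x.2 * v : ℝ) : ℂ) + ((B x.2 * (2 * u) : ℝ) : ℂ) * Complex.I)
        * cis (2 * x.1) = 0 := by
      rw [E2]; push_cast; ring
    exact (mul_eq_zero.1 this).resolve_right (cis_ne_zero _)
  have G1 : deriv A x.2 * v = 0 := by
    have := congrArg Complex.re F1
    simpa using this
  have G2 : deriv B x.2 * v = 0 := by
    have := congrArg Complex.re F2
    simpa using this
  have G3 : B x.2 * (2 * u) = 0 := by
    have := congrArg Complex.im F2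
    simpa using this
  have hu : u = 0 := by
    have := (mul_eq_zero.1 G3).resolve_left (h.pos _ hx.le).ne'
    linarith
  have hv : v = 0 := by
    rcases h.imm _ hx with h1 | h1
    · exact (mul_eq_zero.1 G1).resolve_left h1
    · exact (mul_eq_zero.1 G2).resolve_left h1
  rw [hu, hv]; rfl

/-- compactness of the closed band -/
theorem ProfC.compact {A B : ℝ → ℝ} {ρ : ℝ} (h : ProfC A B ρ) (c : ℂ) :
    IsCompact {y | ∃ x : ℝ × ℝ, |x.2| ≤ ρ ∧ PhC c A B x = y} := by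
  have h1 : {y | ∃ x : ℝ × ℝ, |x.2| ≤ ρ ∧ PhC c A B x = y} =
      PhC c A B '' (Icc 0 (2*Real.pi) ×ˢ Icc (-ρ) ρ) := by
    ext y
    constructor
    · rintro ⟨x, hx, rfl⟩
      obtain ⟨n, hn, -⟩ := existsUnique_add_zsmul_mem_Ico (show (0:ℝ) < 2 * Real.pi by positivity) x.1 0
      rw [zsmul_eq_mul, zero_add] at hn
      refine ⟨(x.1 + n * (2 * Real.pi), x.2), ⟨⟨hn.1, hn.2.le⟩, abs_le.1 hx⟩, ?_⟩
      have e : ∀ m : ℤ, cis (m * (2 * Real.pi)) = 1 := by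
        intro m
        unfold cis
        rw [Complex.exp_eq_one_iff]
        exact ⟨m, by push_cast; ring⟩
      have e1 : cis (x.1 + n * (2 * Real.pi)) = cis x.1 := by rw [cis_add, e, mul_one]
      have e2 : cis (2 * (x.1 + n * (2 * Real.pi))) = cis (2 * x.1) := by
        rw [cis_two_mul, e1, cis_two_mul]
      simp only [PhC, e1, e2]
    · rintro ⟨x, hx, rfl⟩
      exact ⟨x, abs_le.2 hx.2, rfl⟩
  rw [h1]
  exact (isCompact_Icc.prod isCompact_Icc).image h.continuous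

variable {M : Set (ℂ × ℂ)}

/-- band map into the surface -/
noncomputable def bmC (c : ℂ) (A B : ℝ → ℝ) (ρ : ℝ) (M : Set (ℂ × ℂ))
    (hM : ∀ x : ℝ × ℝ, |x.2| < ρ → PhC c A B x ∈ M) (x : St ρ) : M := ⟨PhC c A B x.1, hM x.1 x.2⟩

theorem bmC_continuous (h : ProfC A B ρ) (hM : ∀ x : ℝ × ℝ, |x.2| < ρ → PhC c A B x ∈ M) :
    Continuous (bmC c A B ρ M hM) :=
  (h.continuous.comp continuous_subtype_val).subtype_mk _

theorem bmC_tau (h : ProfC A B ρ) (hM : ∀ x : ℝ × ℝ, |x.2| < ρ → PhC c A B x ∈ M) (s : St ρ) :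
    bmC c A B ρ M hM (tau ρ s) = bmC c A B ρ M hM s :=
  Subtype.ext (h.flip s.1)

theorem bmC_tau_zpow (h : ProfC A B ρ) (hM : ∀ x : ℝ × ℝ, |x.2| < ρ → PhC c A B x ∈ M) (n : ℤ) :
    ∀ s : St ρ, bmC c A B ρ M hM ((tau ρ ^ n) s) = bmC c A B ρ M hM s ∧
      ((tau ρ ^ n) s).1.1 = s.1.1 + n * Real.pi := by
  induction n using Int.induction_on with
  | zero => intro s; simp
  | succ n ih =>
    intro s
    rw [zpow_add_one, Equiv.Perm.mul_apply]
    obtain ⟨h1, h2⟩ := ih (tau ρ s)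
    refine ⟨by rw [h1, bmC_tau h], ?_⟩
    rw [h2]
    have : (tau ρ s).1.1 = s.1.1 + Real.pi := rfl
    rw [this]; push_cast; ring
  | pred n ih =>
    intro s
    rw [zpow_sub_one, Equiv.Perm.mul_apply]
    obtain ⟨h1, h2⟩ := ih ((tau ρ)⁻¹ s)
    have h9 : tau ρ ((tau ρ)⁻¹ s) = s := (tau ρ).apply_symm_apply s
    refine ⟨by rw [h1, ← bmC_tau h, h9], ?_⟩
    rw [h2]
    have : ((tau ρ)⁻¹ s).1.1 = s.1.1 - Real.pi := rfl
    rw [this]; push_cast; ring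

theorem band_potC (h : ProfC A B ρ) {W : Set (ℂ × ℂ)} (hW : IsOpen W)
    (hMW : ∀ y, y ∈ M ∩ W ↔ ∃ x : ℝ × ℝ, |x.2| < ρ ∧ PhC c A B x = y)
    (hM : ∀ x : ℝ × ℝ, |x.2| < ρ → PhC c A B x ∈ M)
    {G : Type*} [CommGroup G] (w : Wt M G) (s0 : St ρ) (q : Path s0 (tau ρ s0))
    (hl : w.w (q.map (bmC_continuous h hM)) = 1) :
    ∃ f : M → G, ∀ (a b : M) (p : Path a b), (∀ t, (p t : ℂ × ℂ) ∈ W) →
      w.w p = (f a)⁻¹ * f b := by
  classical
  have := St_simply h.rho_pos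
  have hfib : ∀ s s' : St ρ, bmC c A B ρ M hM s = bmC c A B ρ M hM s' →
      ∃ n : ℤ, (tau ρ ^ n) s = s' := by
    intro s s' hss
    have he : PhC c A B s.1 = PhC c A B s'.1 := congrArg Subtype.val hss
    obtain ⟨n, hn⟩ := h.angle (le_of_lt s.2) (le_of_lt s'.2) he
    refine ⟨n, ?_⟩
    obtain ⟨h1, h2⟩ := bmC_tau_zpow h hM n s
    apply Subtype.ext
    apply h.eq_of_angle (c := c) (le_of_lt ((tau ρ ^ n) s).2) (le_of_lt s'.2)
    · rw [h2, hn]
    · have := congrArg Subtype.val h1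
      exact this.trans he
  have hsec : ∀ y ∈ range (bmC c A B ρ M hM), ∃ N ∈ 𝓝 y, ∃ g : M → St ρ, ContinuousOn g N ∧
      ∀ y' ∈ N, bmC c A B ρ M hM (g y') = y' := by
    rintro y ⟨x, rfl⟩
    have hinj : InjOn (PhC c A B) (Bx x.1.1 ρ) := (h.injOn (c := c) x.1.1).mono (by
      intro v hv
      exact ⟨Ioo_subset_Icc_self hv.1, Ioo_subset_Icc_self hv.2⟩)
    have hop := h.hopen (c := c) hW hMW x.1.1
    obtain ⟨g, hg, hg2⟩ := exists_section (M := M) (Bx_open x.1.1 ρ) hinj hop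
    obtain ⟨W', hW', hWe⟩ := hop _ subset_rfl (Bx_open x.1.1 ρ)
    have hNeq : {m : M | (m : ℂ × ℂ) ∈ PhC c A B '' Bx x.1.1 ρ} = Subtype.val ⁻¹' W' := by
      ext m
      change (m : ℂ × ℂ) ∈ PhC c A B '' Bx x.1.1 ρ ↔ (m : ℂ × ℂ) ∈ W'
      rw [hWe]
      exact ⟨fun h => h.2, fun h => ⟨m.2, h⟩⟩
    have hN : {m : M | (m : ℂ × ℂ) ∈ PhC c A B '' Bx x.1.1 ρ} ∈ 𝓝 (bmC c A B ρ M hM x) := by
      rw [hNeq]
      apply (hW'.preimage continuous_subtype_val).mem_nhds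
      have : (bmC c A B ρ M hM x : ℂ × ℂ) ∈ M ∩ W' := by
        rw [← hWe]
        exact ⟨x.1, mem_Bx_self x.2, rfl⟩
      exact this.2
    have hgl : ∀ m : M, (m : ℂ × ℂ) ∈ PhC c A B '' Bx x.1.1 ρ → |(g m).2| < ρ := fun m hm =>
      abs_lt.2 (hg2 m hm).1.2
    refine ⟨_, hN, fun m => if hm : |(g m).2| < ρ then ⟨g m, hm⟩
      else ⟨(0, 0), by simpa using h.rho_pos⟩, ?_, ?_⟩
    · rw [Topology.IsInducing.subtypeVal.continuousOn_iff]
      refine hg.congr ?_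
      intro m hm
      simp only [Function.comp]
      rw [dif_pos (hgl m hm)]
    · intro m hm
      apply Subtype.ext
      simp only
      rw [dif_pos (hgl m hm)]
      exact (hg2 m hm).2
  obtain ⟨f, hf⟩ := w.band_potential (bmC c A B ρ M hM) (bmC_continuous h hM) (tau ρ)
    (tau_continuous ρ) (bmC_tau h hM) hfib hsec s0 q hl
  refine ⟨f, fun a b p hp => hf a b p fun t => ?_⟩
  obtain ⟨x, hx, hxy⟩ := (hMW (p t)).1 ⟨(p t).2, hp t⟩
  exact ⟨⟨x, hx⟩, Subtype.ext hxy⟩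

theorem ProfC.chart {c : ℂ} {A B : ℝ → ℝ} {ρ : ℝ} (h : ProfC A B ρ) {M W : Set (ℂ × ℂ)}
    (hW : IsOpen W) (hMW : ∀ y, y ∈ M ∩ W ↔ ∃ x : ℝ × ℝ, |x.2| < ρ ∧ PhC c A B x = y)
    (y : M) (hy : (y : ℂ × ℂ) ∈ W) :
    ∃ e : OpenPartialHomeomorph M (EuclideanSpace ℝ (Fin 2)), y ∈ e.source ∧
      ContDiffOn ℝ ∞ (fun z => ((e.symm z : M) : ℂ × ℂ)) e.target ∧
      ∃ π : (ℂ × ℂ) →L[ℝ] (EuclideanSpace ℝ (Fin 2)), ∀ m : M, e m = π m := by
  obtain ⟨x, hx, hxy⟩ := (hMW y).1 ⟨y.2, hy⟩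
  have hV : IsOpen (L2 ⁻¹' (Bx x.1 ρ)) := (Bx_open _ _).preimage L2.continuous
  have hΦ : ContDiff ℝ ∞ (fun v => PhC c A B (L2 v)) := (PhC_contDiff c h.hA h.hB).comp L2.contDiff
  have hmaps : ∀ v ∈ L2 ⁻¹' (Bx x.1 ρ), PhC c A B (L2 v) ∈ M := fun v hv =>
    ((hMW _).2 ⟨L2 v, abs_lt.2 hv.2, rfl⟩).1
  have hopen : ∀ O ⊆ L2 ⁻¹' (Bx x.1 ρ), IsOpen O → ∃ W : Set (ℂ × ℂ), IsOpen W ∧
      (fun v => PhC c A B (L2 v)) '' O = M ∩ W := by
    intro O hO hOo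
    obtain ⟨W', hW', he⟩ := h.hopen (c := c) hW hMW x.1 (L2 '' O) (by
      rintro _ ⟨v, hv, rfl⟩; exact hO hv) (L2.toHomeomorph.isOpenMap O hOo)
    refine ⟨W', hW', ?_⟩
    rw [← he, image_image]
  have hxV : L2.symm x ∈ L2 ⁻¹' (Bx x.1 ρ) := by
    change L2 (L2.symm x) ∈ Bx x.1 ρ
    rw [L2.apply_symm_apply]; exact mem_Bx_self hx
  have hinj : Function.Injective (fderiv ℝ (fun v => PhC c A B (L2 v)) (L2.symm x)) := by
    have h1 : HasFDerivAt (PhC c A B) (fderiv ℝ (PhC c A B) x) (L2 (L2.symm x)) := by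
      rw [L2.apply_symm_apply]
      exact (((PhC_contDiff c h.hA h.hB).differentiable (by simp)) x).hasFDerivAt
    have h2 : HasFDerivAt (fun v => L2 v) (L2 : EuclideanSpace ℝ (Fin 2) →L[ℝ] ℝ × ℝ) (L2.symm x) :=
      L2.hasFDerivAt
    have h3 := h1.comp (L2.symm x) h2
    have h4 : fderiv ℝ (fun v => PhC c A B (L2 v)) (L2.symm x)
        = (fderiv ℝ (PhC c A B) x).comp (L2 : EuclideanSpace ℝ (Fin 2) →L[ℝ] ℝ × ℝ) := h3.fderiv
    rw [h4]
    exact (h.fderiv_inj hx).comp L2.injective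
  obtain ⟨e, he1, he2, he3⟩ := exists_chart hV hΦ hmaps hopen hxV hinj
  refine ⟨e, ?_, he2, he3⟩
  have : (⟨PhC c A B (L2 (L2.symm x)), hmaps _ hxV⟩ : M) = y := by
    apply Subtype.ext
    change PhC c A B (L2 (L2.symm x)) = y
    rw [L2.apply_symm_apply]; exact hxy
  rw [← this]
  exact he1

end Pool.Agent.H105Z.N5
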