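import Pool.Agent.H105Z.N5.A

set_option autoImplicit false

open Real Set Filter Topology
open scoped ContDiff

namespace Pool.Agent.H105Z.N5

open Pool.Agent.Helper331

variable (D : N3D)

/-- the four centres of the small crosscaps -/
noncomputable def cen (k : Fin 4) : ℂ :=
  ![(D.p : ℂ), (D.p : ℂ) * Complex.I, -(D.p : ℂ), -((D.p : ℂ) * Complex.I)] k

theorem cen_re_im (k : Fin 4) : ((cen D k).re = D.p ∧ (cen D k).im = 0 ∧ k = 0) ∨
    ((cen D k).re = 0 ∧ (cen D k).im = D.p ∧ k = 1) ∨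
    ((cen D k).re = -D.p ∧ (cen D k).im = 0 ∧ k = 2) ∨
    ((cen D k).re = 0 ∧ (cen D k).im = -D.p ∧ k = 3) := by
  fin_cases k <;> simp [cen]

theorem norm_sq_eq (z : ℂ) : ‖z‖^2 = z.re^2 + z.im^2 := by
  rw [← Complex.normSq_eq_norm_sq, Complex.normSq_apply]; ring

theorem cen_norm (k : Fin 4) : ‖cen D k‖ = D.p := by
  have hp := D.hp
  have h : ‖cen D k‖^2 = D.p^2 := by
    rw [norm_sq_eq]
    rcases cen_re_im D k with ⟨h1, h2, -⟩ | ⟨h1, h2, -⟩ | ⟨h1, h2, -⟩ | ⟨h1, h2, -⟩ <;>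
      rw [h1, h2] <;> ring
  exact (pow_left_inj₀ (norm_nonneg _) hp.le two_ne_zero).1 h

theorem cen_sep {j k : Fin 4} (h : j ≠ k) : 7/5 * D.p ≤ ‖cen D j - cen D k‖ := by
  have hp := D.hp
  have hp2 : 0 < D.p^2 := by positivity
  apply le_of_pow_le_pow_left₀ two_ne_zero (norm_nonneg _)
  rw [norm_sq_eq, Complex.sub_re, Complex.sub_im]
  rcases cen_re_im D j with ⟨h1, h2, h3⟩ | ⟨h1, h2, h3⟩ | ⟨h1, h2, h3⟩ | ⟨h1, h2, h3⟩ <;>
  rcases cen_re_im D k with ⟨g1, g2, g3⟩ | ⟨g1, g2, g3⟩ | ⟨g1, g2, g3⟩ | ⟨g1, g2, g3⟩ <;>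
  first
  | exact absurd (h3.trans g3.symm) h
  | (rw [h1, h2, g1, g2]; nlinarith)

theorem cen_cover {z : ℂ} (hz : ‖z‖ ≤ 5/4 * D.p) : ∃ k, ‖z - cen D k‖ < 13/10 * D.p := by
  have hp := D.hp
  have hp2 : 0 < D.p^2 := by positivity
  have hz2 : z.re^2 + z.im^2 ≤ 25/16 * D.p^2 := by
    rw [← norm_sq_eq]
    have := norm_nonneg z
    nlinarith
  have key : ∀ x y : ℝ, x^2 + y^2 ≤ 25/16 * D.p^2 → |y| ≤ x →
      (x - D.p)^2 + y^2 < (13/10 * D.p)^2 := by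
    intro x y h1 h2
    have h3 : y^2 ≤ x^2 := by
      rw [← sq_abs y]; exact pow_le_pow_left₀ (abs_nonneg _) h2 2
    have h4 : 0 ≤ x := (abs_nonneg _).trans h2
    rcases le_total x D.p with h5 | h5
    · nlinarith
    · nlinarith
  have fin : ∀ k, (z.re - (cen D k).re)^2 + (z.im - (cen D k).im)^2 < (13/10 * D.p)^2 →
      ∃ k, ‖z - cen D k‖ < 13/10 * D.p := by
    intro k hk
    refine ⟨k, ?_⟩
    apply lt_of_pow_lt_pow_left₀ 2 (by positivity)
    rw [norm_sq_eq, Complex.sub_re, Complex.sub_im]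
    exact hk
  have c0 : (cen D 0).re = D.p ∧ (cen D 0).im = 0 := by simp [cen]
  have c1 : (cen D 1).re = 0 ∧ (cen D 1).im = D.p := by simp [cen]
  have c2 : (cen D 2).re = -D.p ∧ (cen D 2).im = 0 := by simp [cen]
  have c3 : (cen D 3).re = 0 ∧ (cen D 3).im = -D.p := by simp [cen]
  rcases le_total |z.im| |z.re| with h | h
  · rcases le_total 0 z.re with g | g
    · rw [abs_of_nonneg g] at h
      apply fin 0
      rw [c0.1, c0.2]
      have := key z.re z.im hz2 h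
      linarith
    · rw [abs_of_nonpos g] at h
      apply fin 2
      rw [c2.1, c2.2]
      have := key (-z.re) z.im (by linarith) h
      linarith
  · rcases le_total 0 z.im with g | g
    · rw [abs_of_nonneg g] at h
      apply fin 1
      rw [c1.1, c1.2]
      have := key z.im z.re (by linarith) h
      linarith
    · rw [abs_of_nonpos g] at h
      apply fin 3
      rw [c3.1, c3.2]
      have := key (-z.im) z.re (by linarith) h
      linarith

theorem profc : ProfC (fun a => a) D.g (13/10 * D.p) where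
  hA := contDiff_id
  hB := D.hgs
  odd := fun a => rfl
  even := D.hge
  pos := fun a _ => D.hgp a
  inj := fun a b _ _ h _ => h
  imm := fun a _ => by
    left
    have : deriv (fun a : ℝ => a) a = 1 := deriv_id a
    rw [this]; norm_num
  rho_pos := by have := D.hp; positivity

/-- crosscap band map -/
noncomputable def Pc (c : ℂ) : ℝ × ℝ → ℂ × ℂ := PhC c (fun a => a) D.g

/-- the surface -/
def M5 : Set (ℂ × ℂ) :=
  {y | ∃ x : ℝ × ℝ, |x.2| ≤ D.r0 ∧ D.P0 x = y} ∪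
  ⋃ k : Fin 4, {y | ∃ x : ℝ × ℝ, |x.2| ≤ 13/10 * D.p ∧ Pc D (cen D k) x = y}

theorem Pc_fst (c : ℂ) (x : ℝ × ℝ) : (Pc D c x).1 = c + x.2 * cis x.1 := by
  simp [Pc, PhC]

theorem Pc_snd (c : ℂ) (x : ℝ × ℝ) :
    (Pc D c x).2 = c^2 + 2 * c * (x.2 * cis x.1) + D.g x.2 * cis (2 * x.1) := by
  simp [Pc, PhC]

theorem exactc {c : ℂ} {z : ℂ} (h1 : D.p/10 ≤ ‖z - c‖) :
    Pc D c (Complex.arg (z - c), ‖z - c‖) = (z, z^2) := by
  have hz : (‖z - c‖ : ℂ) * cis (Complex.arg (z - c)) = z - c :=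
    Complex.norm_mul_exp_arg_mul_I (z - c)
  apply Prod.ext
  · rw [Pc_fst]; simp only; rw [hz]; ring
  · rw [Pc_snd]
    simp only
    rw [hz, D.hgq _ (by rwa [abs_of_nonneg (norm_nonneg _)]), cis_two_mul]
    push_cast
    rw [← mul_pow, hz]; ring

theorem Pc_norm (c : ℂ) (x : ℝ × ℝ) : ‖(Pc D c x).1 - c‖ = |x.2| := by
  rw [Pc_fst, add_sub_cancel_left, norm_mul, norm_cis, mul_one, Complex.norm_real, norm_eq_abs]

theorem Pc_exact {c : ℂ} {x : ℝ × ℝ} (hx : D.p/10 ≤ |x.2|) :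
    (Pc D c x).2 = (Pc D c x).1^2 := by
  rw [Pc_snd, Pc_fst, D.hgq _ hx, cis_two_mul]
  push_cast; ring

theorem Pc_small {c : ℂ} (hc : ‖c‖ = D.p) {x : ℝ × ℝ} (hx : |x.2| < D.p/10) :
    ‖(Pc D c x).2‖ ≤ 5/4 * D.p^2 := by
  have hp := D.hp
  rw [Pc_snd]
  have h1 : ‖c^2‖ = D.p^2 := by
    rw [norm_pow, hc]
  have h2 : ‖2 * c * (x.2 * cis x.1)‖ = 2 * D.p * |x.2| := by
    rw [norm_mul, norm_mul, norm_mul, norm_cis, Complex.norm_real, norm_eq_abs, hc]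
    simp
  have h3 : ‖(D.g x.2 : ℂ) * cis (2 * x.1)‖ = D.g x.2 := by
    rw [norm_mul, norm_cis, mul_one, Complex.norm_real, Real.norm_of_nonneg (D.hgp _).le]
  have h4 := norm_add_le (c^2 + 2 * c * (x.2 * cis x.1)) (D.g x.2 * cis (2 * x.1))
  have h5 := norm_add_le (c^2) (2 * c * (x.2 * cis x.1))
  rw [h3] at h4
  rw [h1, h2] at h5
  have h6 := D.hgu x.2
  have h7 : x.2^2 ≤ D.p^2/100 := by
    rw [← sq_abs]
    have := abs_nonneg x.2
    nlinarith
  have h8 : 2 * D.p * |x.2| ≤ 2 * D.p * (D.p/10) := by gcongr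
  nlinarith

theorem mem_M_iff (y : ℂ × ℂ) : y ∈ M5 D ↔
    (∃ x : ℝ × ℝ, |x.2| ≤ D.r0 ∧ D.P0 x = y) ∨
    ∃ k, ∃ x : ℝ × ℝ, |x.2| ≤ 13/10 * D.p ∧ Pc D (cen D k) x = y := by
  simp only [M5, mem_union, mem_iUnion, mem_ofPred_eq]

theorem two_c {j k : Fin 4} (h : j ≠ k) (z : ℂ) :
    7/5 * D.p ≤ ‖z - cen D j‖ + ‖z - cen D k‖ := by
  have h1 := cen_sep D h.symm
  have h2 := norm_sub_le (z - cen D j) (z - cen D k)
  have e : z - cen D j - (z - cen D k) = cen D k - cen D j := by ring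
  rw [e] at h2
  linarith

/-- the open set carrying the crosscap band -/
def Wc (c : ℂ) : Set (ℂ × ℂ) := {y | ‖y.2‖ < 9 * D.p^2 ∧ ‖y.1 - c‖ < 13/10 * D.p}

theorem Wc_open (c : ℂ) : IsOpen (Wc D c) :=
  (isOpen_lt (continuous_snd.norm) continuous_const).inter
    (isOpen_lt ((continuous_fst.sub continuous_const).norm) continuous_const)

theorem norm_le_of_near {c : ℂ} (hc : ‖c‖ = D.p) {z : ℂ} (hz : ‖z - c‖ ≤ 13/10 * D.p) :
    ‖z‖ ≤ 23/10 * D.p := by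
  have h2 := norm_add_le (z - c) c
  rw [sub_add_cancel, hc] at h2
  linarith

theorem P0_mem {x : ℝ × ℝ} (hx : |x.2| ≤ D.r0) : D.P0 x ∈ M5 D := Or.inl ⟨x, hx, rfl⟩

theorem Pc_mem (k : Fin 4) {x : ℝ × ℝ} (hx : |x.2| ≤ 13/10 * D.p) : Pc D (cen D k) x ∈ M5 D := by
  rw [mem_M_iff]; exact Or.inr ⟨k, x, hx, rfl⟩

/-- points of M in the zone above the crosscaps -/
theorem mem_W0_iff (y : ℂ × ℂ) :
    y ∈ M5 D ∩ D.W0 ↔ ∃ x : ℝ × ℝ, |x.2| < D.r0 ∧ D.P0 x = y := by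
  have hp := D.hp
  have hp2 : 0 < D.p^2 := by positivity
  constructor
  · rintro ⟨hM, hW⟩
    have hW' : 36/25 * D.p^2 < ‖y.2‖ := hW
    have key : ∀ c : ℂ, ‖c‖ = D.p → (∃ x : ℝ × ℝ, |x.2| ≤ 13/10 * D.p ∧ Pc D c x = y) →
        ∃ x : ℝ × ℝ, |x.2| < D.r0 ∧ D.P0 x = y := by
      rintro c hc ⟨x, hx, rfl⟩
      have h1 : D.p/10 ≤ |x.2| := by
        by_contra h
        push Not at h
        have := Pc_small D hc h
        nlinarith
      have h2 := Pc_exact D (c := c) h1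
      have h3 := Pc_norm D c x
      have h4 : ‖(Pc D c x).1‖ ≤ 23/10 * D.p := norm_le_of_near D hc (by rw [h3]; exact hx)
      have h5 : 6/5 * D.p < ‖(Pc D c x).1‖ := by
        rw [h2, norm_pow] at hW'
        apply lt_of_pow_lt_pow_left₀ 2 (norm_nonneg _)
        nlinarith
      obtain ⟨x', h6, h7, h8⟩ := D.exact0 h5.le (by linarith)
      refine ⟨x', h8 h5, ?_⟩
      rw [h7, ← h2]
    rw [mem_M_iff] at hM
    rcases hM with ⟨x, hx, hxy⟩ | ⟨k, h⟩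
    · refine ⟨x, ?_, hxy⟩
      rw [← D.P0_gt_iff hx, hxy]; exact hW'
    · exact key _ (cen_norm D k) h
  · rintro ⟨x, hx, rfl⟩
    exact ⟨Or.inl ⟨x, hx.le, rfl⟩, (D.P0_gt_iff hx.le).2 hx⟩

/-- points of M near a crosscap -/
theorem mem_Wc_iff (k : Fin 4) (y : ℂ × ℂ) :
    y ∈ M5 D ∩ Wc D (cen D k) ↔ ∃ x : ℝ × ℝ, |x.2| < 13/10 * D.p ∧ Pc D (cen D k) x = y := by
  have hp := D.hp
  have hp2 : 0 < D.p^2 := by positivity
  have hc := cen_norm D k
  set c := cen D k with hcdef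
  have key : ∀ z : ℂ, D.p/10 ≤ ‖z - c‖ → ‖z - c‖ < 13/10 * D.p →
      ∃ x : ℝ × ℝ, |x.2| < 13/10 * D.p ∧ Pc D c x = (z, z^2) := by
    intro z h1 h2
    exact ⟨_, by simpa [abs_of_nonneg (norm_nonneg _)] using h2, exactc D h1⟩
  constructor
  · rintro ⟨hM, hW1, hW2⟩
    rw [mem_M_iff] at hM
    rcases hM with ⟨x, hx, rfl⟩ | ⟨j, x, hx, rfl⟩
    · have h1 := D.P0_exact hx hW1.le
      have h2 := D.P0_ge hx
      rw [h1, norm_pow] at h2
      have h3 : 6/5 * D.p ≤ ‖(D.P0 x).1‖ := by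
        apply le_of_pow_le_pow_left₀ two_ne_zero (norm_nonneg _)
        nlinarith
      have h5 := norm_sub_norm_le (D.P0 x).1 c
      obtain ⟨x', h6, h7⟩ := key (D.P0 x).1 (by linarith) hW2
      exact ⟨x', h6, by rw [h7, ← h1]⟩
    · by_cases hjk : j = k
      · subst hjk
        refine ⟨x, ?_, rfl⟩
        rw [← Pc_norm D c x]; exact hW2
      · have h1 := Pc_norm D (cen D j) x
        have h2 := two_c D hjk (Pc D (cen D j) x).1
        rw [← hcdef] at h2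
        have h3 : D.p/10 ≤ |x.2| := by
          rw [← h1]; linarith
        have h4 := Pc_exact D (c := cen D j) h3
        obtain ⟨x', h6, h7⟩ := key (Pc D (cen D j) x).1 (by linarith) hW2
        exact ⟨x', h6, by rw [h7, ← h4]⟩
  · rintro ⟨x, hx, rfl⟩
    refine ⟨?_, ?_, ?_⟩
    · exact Pc_mem D k hx.le
    · rcases lt_or_ge |x.2| (D.p/10) with h | h
      · have := Pc_small D hc h
        nlinarith
      · rw [Pc_exact D h, norm_pow]
        have := norm_le_of_near D hc (z := (Pc D c x).1) (by rw [Pc_norm]; exact hx.le)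
        have h0 := norm_nonneg (Pc D c x).1
        nlinarith
    · rw [Pc_norm]; exact hx

/-- the five open sets cover the surface -/
theorem cover {y : ℂ × ℂ} (hy : y ∈ M5 D) : y ∈ D.W0 ∨ ∃ k, y ∈ Wc D (cen D k) := by
  have hp := D.hp
  have hp2 : 0 < D.p^2 := by positivity
  by_cases hW : y ∈ D.W0
  · exact Or.inl hW
  right
  have hW' : ‖y.2‖ ≤ 36/25 * D.p^2 := not_lt.1 hW
  have h9 : ‖y.2‖ < 9 * D.p^2 := by nlinarith
  have key : y.2 = y.1^2 → ∃ k, y ∈ Wc D (cen D k) := by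
    intro h
    have h1 : ‖y.1‖^2 ≤ 36/25 * D.p^2 := by rw [← norm_pow, ← h]; exact hW'
    have h2 : ‖y.1‖ ≤ 5/4 * D.p := by
      apply le_of_pow_le_pow_left₀ two_ne_zero (by positivity)
      nlinarith
    obtain ⟨k, hk⟩ := cen_cover D h2
    exact ⟨k, h9, hk⟩
  rw [mem_M_iff] at hy
  rcases hy with ⟨x, hx, rfl⟩ | ⟨k, x, hx, rfl⟩
  · exact key (D.P0_exact hx h9.le)
  · rcases lt_or_ge |x.2| (D.p/10) with h | h
    · refine ⟨k, h9, ?_⟩
      rw [Pc_norm]; linarith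
    · exact key (Pc_exact D h)

/-- low points on the surface that lie above the crosscaps are exact. -/
theorem exact_low {y : ℂ × ℂ} (hy : y ∈ M5 D) (h0 : y ∈ D.W0) (h9 : ‖y.2‖ < 9 * D.p^2) :
    y.2 = y.1^2 := by
  obtain ⟨x, hx, rfl⟩ := (mem_W0_iff D y).1 ⟨hy, h0⟩
  exact D.P0_exact hx.le h9.le

theorem M_compact : IsCompact (M5 D) :=
  (D.prof0.compact 0).union (isCompact_iUnion fun k => (profc D).compact (cen D k))

end Pool.Agent.H105Z.N5
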