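import Pool.Agent.H105Z.N5.C

set_option autoImplicit false

open Set Filter Topology unitInterval
open scoped ContDiff

namespace Pool.Agent.H105Z.N5

open Pool.Agent.Helper331 Pool.Agent.Helper331.N3D

variable (D : N3D)

theorem Om_expand (c : ℂ) (y : ℂ × ℂ) : OmC c y = (y.1 - c)^2 + (y.2 - y.1^2) := by
  simp only [OmC]; ring

/-- near another crosscap -/
theorem other_slit {j k : Fin 4} (hjk : j ≠ k) {x : ℝ × ℝ} (hx : |x.2| < 13/10 * D.p) :
    (Pc D (cen D j) x).1 - cen D k ≠ 0 ∧
    OmC (cen D k) (Pc D (cen D j) x) / ((Pc D (cen D j) x).1 - cen D k)^2 ∈ Complex.slitPlane := by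
  have hp := D.hp
  set y := Pc D (cen D j) x with hy
  set c := cen D k with hc
  have h1 : ‖y.1 - cen D j‖ = |x.2| := Pc_norm D _ x
  have h2 := two_c D hjk y.1
  rw [← hc] at h2
  have h3 : 0 < ‖y.1 - c‖ := by linarith
  have h4 : y.1 - c ≠ 0 := norm_pos_iff.1 h3
  refine ⟨h4, ?_⟩
  have e : OmC c y / (y.1 - c)^2 = 1 + (y.2 - y.1^2) / (y.1 - c)^2 := by
    rw [Om_expand]; field_simp
  rw [e]
  rcases lt_or_ge |x.2| (D.p/10) with h | h
  · apply Complex.mem_slitPlane_of_norm_lt_one
    have h5 : y.2 - y.1^2 = ((D.g x.2 - x.2^2 : ℝ) : ℂ) * cis (2 * x.1) := by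
      rw [hy, Pc_snd, Pc_fst, cis_two_mul]; push_cast; ring
    rw [norm_div, norm_pow, h5, norm_mul, norm_cis, mul_one, Complex.norm_real,
      Real.norm_of_nonneg (by linarith [D.hgl x.2])]
    have h6 := D.hgu x.2
    have h7 : D.p ≤ ‖y.1 - c‖ := by linarith
    rw [div_lt_one (by positivity)]
    have h8 : D.p^2 ≤ ‖y.1 - c‖^2 := by gcongr
    have : 0 < D.p^2 := by positivity
    nlinarith
  · rw [Pc_exact D h, ← hy]
    simp

/-- on the outer band -/
theorem outer_slit {c : ℂ} (hc : ‖c‖ = D.p) {x : ℝ × ℝ} (hx : |x.2| < D.r0) :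
    cis (-(2 * x.1)) * OmC c (D.P0 x) ∈ Complex.slitPlane := by
  have hp := D.hp
  have hp2 : 0 < D.p^2 := by positivity
  obtain ⟨s, a⟩ := x
  simp only at hx ⊢
  set A := A0 a with hA
  set B := D.B0 a with hB
  have hgt := (D.P0_gt_iff (x := (s, a)) (le_of_lt hx)).2 hx
  have hnB : ‖(D.P0 (s, a)).2‖ = B := by
    rw [D.norm_P0_snd (x := (s, a)) (le_of_lt hx), hB, D.B0_eq]
  rw [hnB] at hgt
  have hcc : cis (-(2 * s)) * cis (2 * s) = 1 := cis_neg_mul _
  have hcc1 : cis (-(2 * s)) * cis s = cis (-s) := by rw [← cis_add]; congr 1; ring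
  have hcc2 : cis (-(2 * s)) = cis (-s)^2 := by rw [← cis_two_mul]; congr 1; ring
  set w := c * cis (-s) with hw
  have hwn : ‖w‖ = D.p := by rw [hw, norm_mul, norm_cis, mul_one, hc]
  have hw2 : w.re^2 + w.im^2 = D.p^2 := by rw [← norm_sq_eq, hwn]
  have e : cis (-(2 * s)) * OmC c (D.P0 (s, a)) = B - 2 * A * w + w^2 := by
    rw [OmC, D.P0_fst, D.P0_snd]
    simp only
    rw [← hA, ← hB, hw]
    linear_combination (B : ℂ) * hcc - 2 * c * A * hcc1 + c^2 * hcc2
  rcases le_or_gt B (9 * D.p^2) with h | h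
  · -- exact
    have hBA : B = A^2 := by
      have h1 := D.P0_exact (x := (s, a)) (le_of_lt hx) (by rw [hnB]; exact h)
      rw [D.P0_fst, D.P0_snd, mul_pow, ← cis_two_mul] at h1
      simp only at h1
      have h2 := mul_right_cancel₀ (cis_ne_zero _) h1
      exact_mod_cast h2
    have e2 : cis (-(2 * s)) * OmC c (D.P0 (s, a)) = ((A : ℂ) - w)^2 := by
      rw [e, hBA]; push_cast; ring
    rw [e2]
    set om := (A : ℂ) - w with hom
    have hre : om.re = A - w.re := by
      rw [hom, Complex.sub_re, Complex.ofReal_re]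
    have hre0 : om.re ≠ 0 := by
      rw [hre]
      intro h0
      have h1 : A^2 = w.re^2 := by
        have : A = w.re := by linarith
        rw [this]
      rw [← hBA] at h1
      nlinarith [sq_nonneg w.im]
    rw [Complex.mem_slitPlane_iff]
    by_cases him : om.im = 0
    · left
      rw [pow_two, Complex.mul_re, him]
      have : 0 < om.re * om.re := mul_self_pos.2 hre0
      linarith
    · right
      rw [pow_two, Complex.mul_im]
      intro h0
      have : om.re * om.im = 0 := by linarith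
      rcases mul_eq_zero.1 this with h1 | h1
      · exact hre0 h1
      · exact him h1
  · -- upper part
    left
    rw [e]
    have hAB : A^2 ≤ B := by
      rw [hB, D.B0_eq, hA, A0]
      have := D.b_lower (-Real.cos a)
      have := Real.sin_sq_add_cos_sq a
      nlinarith
    have e3 : ((B : ℂ) - 2 * A * w + w^2).re = B - 2 * A * w.re + (w.re^2 - w.im^2) := by
      simp [pow_two]
    rw [e3]
    nlinarith [sq_nonneg (A - 2 * w.re), sq_nonneg w.re, sq_nonneg w.im]

/-- the discriminant does not vanish on the surface -/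
theorem Om_ne_zero (k : Fin 4) {y : ℂ × ℂ} (hy : y ∈ M5 D) : OmC (cen D k) y ≠ 0 := by
  rcases cover D hy with h | ⟨j, h⟩
  · obtain ⟨x, hx, rfl⟩ := (mem_W0_iff D y).1 ⟨hy, h⟩
    intro h0
    have := outer_slit D (cen_norm D k) hx
    rw [h0, mul_zero] at this
    exact Complex.zero_notMem_slitPlane this
  · obtain ⟨x, hx, rfl⟩ := (mem_Wc_iff D j y).1 ⟨hy, h⟩
    by_cases hjk : j = k
    · subst hjk
      rw [Pc, OmC_PhC]
      apply mul_ne_zero _ (cis_ne_zero _)
      exact_mod_cast (D.hgp _).ne'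
    · intro h0
      have := (other_slit D hjk hx).2
      rw [h0, zero_div] at this
      exact Complex.zero_notMem_slitPlane this

/-- double cover associated with one crosscap -/
def Ec (c : ℂ) : Set (M5 D × ℂ) := {e | e.2^2 = OmC c (e.1 : ℂ × ℂ)}

theorem Ec_double (k : Fin 4) : DoubleRel (Ec D (cen D k)) :=
  doubleRel_sq (f := fun y : M5 D => OmC (cen D k) (y : ℂ × ℂ))
    ((OmC_continuous _).comp continuous_subtype_val) (fun y => Om_ne_zero D k y.2)

/-- double cover coming from the projective plane -/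
def E0 : Set (M5 D × (ℂ × ℝ)) := {e | e.2.1^2 = (D.χ1 e.1 : ℂ)^2 * (e.1 : ℂ × ℂ).2 ∧
  e.2.2^2 = D.χ2 e.1^2 ∧ e.2.1 * D.χ2 e.1 = e.2.2 * (D.χ1 e.1 * (e.1 : ℂ × ℂ).1)}

theorem χ1_exact {y : ℂ × ℂ} (hy : y ∈ M5 D) (h : ‖y.2‖ < 9 * D.p^2) :
    (D.χ1 y : ℂ)^2 * y.2 = (D.χ1 y * y.1)^2 ∧ (2 * D.p^2 < ‖y.2‖ → 0 < D.χ1 y ∧ y.1 ≠ 0) := by
  have hp := D.hp
  have hp2 : 0 < D.p^2 := by positivity
  rcases le_or_gt ‖y.2‖ (2 * D.p^2) with h1 | h1
  · have : D.χ1 y = 0 := max_eq_left (by linarith)
    rw [this]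
    refine ⟨by simp, fun h2 => absurd h2 (not_lt.2 h1)⟩
  · have hW : y ∈ D.W0 := by
      change 36/25 * D.p^2 < ‖y.2‖
      linarith
    have he := exact_low D hy hW h
    refine ⟨by rw [he]; ring, fun _ => ⟨lt_max_of_lt_right (by linarith), ?_⟩⟩
    intro h0
    rw [he, h0] at h1
    norm_num at h1
    linarith

theorem E0_double : DoubleRel (E0 D) := by
  have hp := D.hp
  have hp2 : 0 < D.p^2 := by positivity
  intro x
  rcases lt_or_ge ‖(x : ℂ × ℂ).2‖ (9 * D.p^2) with h | h
  · refine ⟨{y | ‖(y : ℂ × ℂ).2‖ < 9 * D.p^2}, ?_, h,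
      fun y => ((D.χ1 y : ℂ) * (y : ℂ × ℂ).1, D.χ2 y), ?_, ?_⟩
    · exact isOpen_lt ((continuous_snd.comp continuous_subtype_val).norm) continuous_const
    · apply Continuous.continuousOn
      have h1 : Continuous (fun y : M5 D => D.χ1 y) := D.χ1_continuous.comp continuous_subtype_val
      have h2 : Continuous (fun y : M5 D => D.χ2 y) := D.χ2_continuous.comp continuous_subtype_val
      have h3 : Continuous (fun y : M5 D => (y : ℂ × ℂ).1) := by fun_prop
      exact ((Complex.continuous_ofReal.comp h1).mul h3).prodMk h2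
    · intro y hy
      have hy' : ‖(y : ℂ × ℂ).2‖ < 9 * D.p^2 := hy
      obtain ⟨he, hne⟩ := χ1_exact D y.2 hy'
      constructor
      · intro h0
        have h1 : (D.χ1 y : ℂ) * (y : ℂ × ℂ).1 = 0 := congrArg Prod.fst h0
        have h2 : D.χ2 y = 0 := congrArg Prod.snd h0
        have h3 : 4 * D.p^2 ≤ ‖(y : ℂ × ℂ).2‖ := by
          by_contra hc
          push Not at hc
          have : 0 < D.χ2 y := lt_max_of_lt_right (by linarith)
          linarith
        obtain ⟨h4, h5⟩ := hne (by linarith)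
        rcases mul_eq_zero.1 h1 with h6 | h6
        · have : D.χ1 y = 0 := by exact_mod_cast h6
          linarith
        · exact h5 h6
      · rintro ⟨u1, u2⟩
        change _ ↔ ((u1, u2) = ((D.χ1 y : ℂ) * (y : ℂ × ℂ).1, D.χ2 y) ∨
          (u1, u2) = (-((D.χ1 y : ℂ) * (y : ℂ × ℂ).1), -D.χ2 y))
        constructor
        · rintro ⟨h1, h2, h3⟩
          simp only at h1 h2 h3
          rw [he] at h1
          have h1' := sq_eq_sq_iff_eq_or_eq_neg.1 h1
          have h2' := sq_eq_sq_iff_eq_or_eq_neg.1 h2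
          by_cases hχ2 : D.χ2 y = 0
          · have hu2 : u2 = 0 := by rcases h2' with h | h <;> rw [h, hχ2] <;> simp
            rcases h1' with h | h
            · left; rw [h, hu2, hχ2]
            · right; rw [h, hu2, hχ2]; simp
          · by_cases hχ1 : (D.χ1 y : ℂ) * (y : ℂ × ℂ).1 = 0
            · have hu1 : u1 = 0 := by rcases h1' with h | h <;> rw [h, hχ1] <;> simp
              rcases h2' with h | h
              · left; rw [h, hu1, hχ1]
              · right; rw [h, hu1, hχ1]; simp
            · rcases h2' with h | h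
              · left
                rw [h] at h3 ⊢
                have hne2 : (D.χ2 y : ℂ) ≠ 0 := by exact_mod_cast hχ2
                have : u1 = (D.χ1 y : ℂ) * (y : ℂ × ℂ).1 := by
                  apply mul_right_cancel₀ hne2
                  rw [h3]; ring
                rw [this]
              · right
                rw [h] at h3 ⊢
                have hne2 : (D.χ2 y : ℂ) ≠ 0 := by exact_mod_cast hχ2
                have : u1 = -((D.χ1 y : ℂ) * (y : ℂ × ℂ).1) := by
                  apply mul_right_cancel₀ hne2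
                  rw [h3]; push_cast; ring
                rw [this]
        · rintro (h | h)
          · obtain ⟨rfl, rfl⟩ := Prod.mk.inj h
            refine ⟨he.symm, rfl, by simp only; ring⟩
          · have h' : (u1, u2) = (-((D.χ1 y : ℂ) * (y : ℂ × ℂ).1), -D.χ2 y) := h
            obtain ⟨rfl, rfl⟩ := Prod.mk.inj h'
            refine ⟨?_, ?_, ?_⟩
            · simp only; rw [neg_sq, he]
            · simp only; rw [neg_sq]
            · simp only; push_cast; ring
  · have hx0 : (x : ℂ × ℂ).2 ≠ 0 := by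
      intro h0; rw [h0, norm_zero] at h; linarith
    obtain ⟨W, hW, hxW, g, hg, hgW⟩ := local_sqrt (X := M5 D) (f := fun y => (y : ℂ × ℂ).2)
      (continuous_snd.comp continuous_subtype_val) hx0
    refine ⟨W ∩ {y | 4 * D.p^2 < ‖(y : ℂ × ℂ).2‖}, hW.inter ?_, ⟨hxW, ?_⟩,
      fun y => ((D.χ1 y : ℂ) * g y, 0), ?_, ?_⟩
    · exact isOpen_lt continuous_const ((continuous_snd.comp continuous_subtype_val).norm)
    · change 4 * D.p^2 < ‖(x : ℂ × ℂ).2‖
      linarith
    · have h1 : Continuous (fun y : M5 D => D.χ1 y) := D.χ1_continuous.comp continuous_subtype_val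
      exact (((Complex.continuous_ofReal.comp h1).continuousOn.mul
        (hg.mono inter_subset_left))).prodMk continuousOn_const
    · rintro y ⟨hyW, hy4⟩
      have hy4' : 4 * D.p^2 < ‖(y : ℂ × ℂ).2‖ := hy4
      obtain ⟨hgy, hne⟩ := hgW y hyW
      have hχ2 : D.χ2 y = 0 := max_eq_left (by linarith)
      have hχ1 : 0 < D.χ1 y := lt_max_of_lt_right (by linarith)
      constructor
      · intro h0
        have h1 : (D.χ1 y : ℂ) * g y = 0 := congrArg Prod.fst h0
        rcases mul_eq_zero.1 h1 with h6 | h6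
        · have : D.χ1 y = 0 := by exact_mod_cast h6
          linarith
        · rw [h6] at hgy
          apply hne
          rw [← hgy]; ring
      · rintro ⟨u1, u2⟩
        have he : (D.χ1 y : ℂ)^2 * (y : ℂ × ℂ).2 = ((D.χ1 y : ℂ) * g y)^2 := by
          rw [mul_pow, hgy]
        constructor
        · rintro ⟨h1, h2, h3⟩
          simp only at h1 h2 h3
          rw [he] at h1
          rw [hχ2] at h2
          have hu2 : u2 = 0 := by
            have : u2^2 = 0 := by rw [h2]; ring
            exact pow_eq_zero_iff two_ne_zero |>.1 this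
          rcases sq_eq_sq_iff_eq_or_eq_neg.1 h1 with h | h
          · left; rw [h, hu2]
          · right; rw [h, hu2]; simp
        · rintro (h | h)
          · obtain ⟨rfl, rfl⟩ := Prod.mk.inj h
            refine ⟨he.symm, by simp only; rw [hχ2], by simp only; rw [hχ2]; simp⟩
          · have h' : (u1, u2) = (-((D.χ1 y : ℂ) * g y), -0) := h
            obtain ⟨rfl, rfl⟩ := Prod.mk.inj h'
            refine ⟨?_, ?_, ?_⟩
            · simp only; rw [neg_sq, he]
            · simp only; rw [hχ2]; simp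
            · simp only; rw [hχ2]; simp

end Pool.Agent.H105Z.N5
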