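import Pool.Agent.H105Z.N5.D

set_option autoImplicit false

open Set Filter Topology unitInterval
open scoped ContDiff

namespace Pool.Agent.H105Z.N5

open Pool.Agent.Helper331

/-- gluing of potentials along path connected overlaps with a common base point -/
theorem glue {X A ι : Type*} [TopologicalSpace X] [CommGroup A] (W : Wt X A) (U : ι → Set X)
    (hU : ∀ i, IsOpen (U i)) (x0 : X) (f : ι → X → A)
    (hf : ∀ i (a b : X) (p : Path a b), (∀ t, p t ∈ U i) → W.w p = (f i a)⁻¹ * f i b)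
    (hij : ∀ i j, i ≠ j → ∀ y ∈ U i ∩ U j, ∃ p : Path x0 y, ∀ t, p t ∈ U i ∩ U j) :
    ∃ F : X → A, ∀ (a b : X) (p : Path a b), (∀ t, p t ∈ ⋃ i, U i) → W.w p = (F a)⁻¹ * F b := by
  classical
  have e : ∀ i j, ∀ y ∈ U i ∩ U j, (f i x0)⁻¹ * f i y = (f j x0)⁻¹ * f j y := by
    intro i j y hy
    by_cases h : i = j
    · rw [h]
    · obtain ⟨p, hp⟩ := hij i j h y hy
      rw [← hf i _ _ p fun t => (hp t).1, ← hf j _ _ p fun t => (hp t).2]
  set F : X → A := fun y => if h : ∃ i, y ∈ U i then (f h.choose x0)⁻¹ * f h.choose y else 1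
    with hF
  have FU : ∀ i, ∀ y ∈ U i, F y = (f i x0)⁻¹ * f i y := by
    intro i y hy
    have h : ∃ i, y ∈ U i := ⟨i, hy⟩
    simp only [hF, dif_pos h]
    exact e _ _ y ⟨h.choose_spec, hy⟩
  refine ⟨F, fun a b p hp => W.of_local (U := ⋃ i, U i) (f := F) ?_ p hp⟩
  intro y hy
  obtain ⟨i, hi⟩ := mem_iUnion.1 hy
  refine ⟨U i, (hU i).mem_nhds hi, fun a b p hp => ?_⟩
  have ha : a ∈ U i := by simpa using hp 0
  have hb : b ∈ U i := by simpa using hp 1
  rw [hf i a b p hp, FU i a ha, FU i b hb]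
  group

theorem trans_mem {X V : Type*} [TopologicalSpace X] [TopologicalSpace V] {E : Set (X × V)}
    {a b c : X} {u v w : V} (p : Path a b) (q : Path b c) (p' : Path u v) (q' : Path v w)
    (h1 : ∀ t, (p t, p' t) ∈ E) (h2 : ∀ t, (q t, q' t) ∈ E) (t : I) :
    ((p.trans q) t, (p'.trans q') t) ∈ E := by
  rw [Path.trans_apply, Path.trans_apply]
  split_ifs
  · exact h1 _
  · exact h2 _

/-- evaluation of the homomorphism of a double relation on a conjugated loop -/
theorem conj_eval {X V : Type*} [TopologicalSpace X] [NormedAddCommGroup V] [NormedSpace ℝ V]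
    {E : Set (X × V)} (hE : DoubleRel E) {x0 : X} {α : FundamentalGroup X x0 →* ℤˣ}
    (hα : ∀ (l : Path x0 x0) (u : I → V), Continuous u → (∀ t, (l t, u t) ∈ E) →
      (u 1 = u 0 → α (FundamentalGroup.fromPath (Path.Homotopic.Quotient.mk l)) = 1) ∧
      (u 1 = -u 0 → α (FundamentalGroup.fromPath (Path.Homotopic.Quotient.mk l)) = -1))
    {a : X} (c : Path x0 a) (l : Path a a) (u : I → V) (hu : Continuous u)
    (hl : ∀ t, (l t, u t) ∈ E) :
    (u 1 = u 0 → α (FundamentalGroup.fromPath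
      (Path.Homotopic.Quotient.mk ((c.trans l).trans c.symm))) = 1) ∧
    (u 1 = -u 0 → α (FundamentalGroup.fromPath
      (Path.Homotopic.Quotient.mk ((c.trans l).trans c.symm))) = -1) := by
  have hneg : ∀ y v, (y, v) ∈ E → (y, -v) ∈ E := by
    intro y v h
    obtain ⟨W, -, hyW, g, -, hg⟩ := hE y
    rw [(hg y hyW).2] at h ⊢
    rcases h with h | h
    · right; rw [h]
    · left; rw [h, neg_neg]
  have cov := hE.isCoveringMap
  have h0 : (a, u 0) ∈ E := by simpa using hl 0
  obtain ⟨Γ, hΓ, hΓ0⟩ := cov.exists_path_lifts (c.symm : C(I, X)) ⟨(a, u 0), h0⟩ (by simp)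
  set v : I → V := fun t => (Γ t).1.2 with hv
  have hvc : Continuous v := by
    have := Γ.continuous
    simp only [hv]
    fun_prop
  have hvE : ∀ t, (c.symm t, v t) ∈ E := by
    intro t
    have h1 : (Γ t).1.1 = c.symm t := congrFun hΓ t
    rw [← h1]
    exact (Γ t).2
  have hv0 : v 0 = u 0 := by simp only [hv, hΓ0]
  let pv : Path (u 0) (v 1) := ⟨⟨v, hvc⟩, hv0, rfl⟩
  let pu : Path (u 0) (u 1) := ⟨⟨u, hu⟩, rfl, rfl⟩
  have hc : ∀ t, (c t, pv.symm t) ∈ E := by
    intro t
    have := hvE (unitInterval.symm t)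
    have e : c.symm (unitInterval.symm t) = c t := by simp
    rw [e] at this
    exact this
  constructor
  · intro h
    let p3 : Path (u 1) (v 1) := ⟨⟨v, hvc⟩, hv0.trans h.symm, rfl⟩
    have := hα ((c.trans l).trans c.symm) ((pv.symm.trans pu).trans p3)
      ((pv.symm.trans pu).trans p3).continuous
      (trans_mem _ _ _ _ (trans_mem _ _ _ _ hc hl) hvE)
    exact this.1 (by simp)
  · intro h
    let p3 : Path (u 1) (-v 1) := ⟨⟨fun t => -v t, hvc.neg⟩, by simp [hv0, h], rfl⟩
    have := hα ((c.trans l).trans c.symm) ((pv.symm.trans pu).trans p3)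
      ((pv.symm.trans pu).trans p3).continuous
      (trans_mem _ _ _ _ (trans_mem _ _ _ _ hc hl) (fun t => hneg _ _ (hvE t)))
    exact this.2 (by simp)

/-- the element of the fundamental group given by a band loop -/
noncomputable def bandLoop {X S : Type*} [TopologicalSpace X] [PathConnectedSpace X]
    [TopologicalSpace S] (x0 : X) {Φ : S → X} (hΦ : Continuous Φ) {s0 s1 : S} (q : Path s0 s1)
    (h : Φ s0 = Φ s1) : FundamentalGroup X x0 :=
  FundamentalGroup.fromPath (Path.Homotopic.Quotient.mk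
    (((PathConnectedSpace.somePath x0 (Φ s0)).trans ((q.map hΦ).cast rfl h)).trans
      (PathConnectedSpace.somePath x0 (Φ s0)).symm))

theorem wt_bandLoop {X S A : Type*} [TopologicalSpace X] [PathConnectedSpace X]
    [TopologicalSpace S] [CommGroup A] (x0 : X) {Φ : S → X} (hΦ : Continuous Φ) {s0 s1 : S}
    (q : Path s0 s1) (h : Φ s0 = Φ s1) (α : FundamentalGroup X x0 →* A) :
    (wtOfHom x0 α).w (q.map hΦ) = α (bandLoop x0 hΦ q h) := by
  rw [← (wtOfHom x0 α).cast (q.map hΦ) rfl h, bandLoop, Path.Homotopic.Quotient.mk_trans,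
    Path.Homotopic.Quotient.mk_trans, Path.Homotopic.Quotient.mk_symm]
  rfl

theorem bandLoop_eval {X V S : Type*} [TopologicalSpace X] [PathConnectedSpace X]
    [NormedAddCommGroup V] [NormedSpace ℝ V] [TopologicalSpace S]
    {E : Set (X × V)} (hE : DoubleRel E) {x0 : X} {α : FundamentalGroup X x0 →* ℤˣ}
    (hα : ∀ (l : Path x0 x0) (u : I → V), Continuous u → (∀ t, (l t, u t) ∈ E) →
      (u 1 = u 0 → α (FundamentalGroup.fromPath (Path.Homotopic.Quotient.mk l)) = 1) ∧
      (u 1 = -u 0 → α (FundamentalGroup.fromPath (Path.Homotopic.Quotient.mk l)) = -1))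
    {Φ : S → X} (hΦ : Continuous Φ) {s0 s1 : S} (q : Path s0 s1) (h : Φ s0 = Φ s1)
    {u : S → V} (hu : Continuous u) (hl : ∀ s, (Φ s, u s) ∈ E) :
    (u s1 = u s0 → α (bandLoop x0 hΦ q h) = 1) ∧ (u s1 = -u s0 → α (bandLoop x0 hΦ q h) = -1) := by
  have := conj_eval hE hα (PathConnectedSpace.somePath x0 (Φ s0)) ((q.map hΦ).cast rfl h)
    (fun t => u (q t)) (hu.comp q.continuous) (fun t => hl (q t))
  simpa [bandLoop] using this

/-- counting homomorphisms to a group of order two. -/
theorem card_hom_eq5 {G : Type*} [Group G] (l0 : G) (l : Fin 4 → G)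
    (upper : ∀ α : G →* ℤˣ, α l0 = 1 → (∀ k, α (l k) = 1) → α = 1)
    (α0 : G →* ℤˣ) (β : Fin 4 → G →* ℤˣ)
    (h00 : α0 l0 = -1) (h0k : ∀ k, α0 (l k) = 1) (hk0 : ∀ k, β k l0 = -1)
    (hkk : ∀ k, β k (l k) = -1) (hjk : ∀ j k, j ≠ k → β k (l j) = 1) :
    Nat.card (G →* Multiplicative (ZMod 2)) = 2 ^ 5 := by
  classical
  have e1 : ℤˣ ≃* Multiplicative (ZMod 2) := by
    haveI : Fact (Nat.Prime 2) := ⟨Nat.prime_two⟩
    apply mulEquivOfPrimeCardEq (p := 2)
    · simp
    · simp
  have e2 : (G →* ℤˣ) ≃ (G →* Multiplicative (ZMod 2)) :=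
    { toFun := fun α => e1.toMonoidHom.comp α
      invFun := fun α => e1.symm.toMonoidHom.comp α
      left_inv := fun α => by ext g; simp
      right_inv := fun α => by ext g; simp }
  rw [← Nat.card_congr e2]
  let ev : (G →* ℤˣ) → (ℤˣ × (Fin 4 → ℤˣ)) := fun α => (α l0, fun k => α (l k))
  have hinj : Function.Injective ev := by
    intro α γ h
    have a0 : α l0 = γ l0 := congrArg (fun x => x.1) h
    have a1 : ∀ k, α (l k) = γ (l k) := fun k => congrArg (fun x => x.2 k) h
    have := upper (α * γ⁻¹) (by simp [a0]) (fun k => by simp [a1])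
    rwa [mul_inv_eq_one] at this
  have hsurj : Function.Surjective ev := by
    rintro ⟨a, b⟩
    refine ⟨(if a = 1 then 1 else α0) * ∏ k, (if b k = 1 then 1 else α0 * β k), ?_⟩
    apply Prod.ext
    · simp only [ev, MonoidHom.mul_apply, MonoidHom.finsetProd_apply]
      have : ∀ k, (if b k = 1 then (1 : G →* ℤˣ) else α0 * β k) l0 = 1 := by
        intro k
        split_ifs
        · rfl
        · simp [h00, hk0]
      rw [Finset.prod_eq_one (fun k _ => this k), mul_one]
      rcases Int.units_eq_one_or a with rfl | rfl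
      · simp
      · rw [if_neg (by decide), h00]
    · funext j
      simp only [ev, MonoidHom.mul_apply, MonoidHom.finsetProd_apply]
      have h1 : (if a = 1 then (1 : G →* ℤˣ) else α0) (l j) = 1 := by
        split_ifs
        · rfl
        · exact h0k j
      rw [h1, one_mul, Finset.prod_eq_single j]
      · rcases Int.units_eq_one_or (b j) with h | h
        · rw [if_pos h, h]; rfl
        · rw [if_neg (by rw [h]; decide), h]; simp [h0k, hkk]
      · intro k _ hk
        split_ifs
        · rfl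
        · simp [h0k, hjk j k (Ne.symm hk)]
      · intro h; exact absurd (Finset.mem_univ j) h
  rw [Nat.card_congr (Equiv.ofBijective ev ⟨hinj, hsurj⟩)]
  simp

end Pool.Agent.H105Z.N5
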