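import Pool.Agent.H105Z.N5.E

set_option autoImplicit false

open Set Filter Topology unitInterval
open scoped ContDiff

namespace Pool.Agent.H105Z.N5

open Pool.Agent.Helper331 Pool.Agent.Helper331.N3D

variable (D : N3D)

theorem exact_M {z : ℂ} (h1 : 6/5 * D.p ≤ ‖z‖) (h2 : ‖z‖ ≤ 3 * D.p) : (z, z^2) ∈ M5 D := by
  obtain ⟨x, hx, hx2, -⟩ := D.exact0 h1 h2
  exact Or.inl ⟨x, hx, hx2⟩

theorem exact_lens {j k : Fin 4} (hjk : j ≠ k) {z : ℂ} (h1 : ‖z - cen D j‖ < 13/10 * D.p)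
    (h2 : ‖z - cen D k‖ < 13/10 * D.p) :
    (z, z^2) ∈ M5 D ∧ (z, z^2) ∈ Wc D (cen D j) ∧ (z, z^2) ∈ Wc D (cen D k) := by
  have hp := D.hp
  have h3 := norm_le_of_near D (cen_norm D j) h1.le
  have h4 := two_c D hjk z
  have h5 : ‖z^2‖ < 9 * D.p^2 := by
    rw [norm_pow]
    have := norm_nonneg z
    nlinarith
  refine ⟨?_, ⟨h5, h1⟩, ⟨h5, h2⟩⟩
  rw [mem_M_iff]
  exact Or.inr ⟨j, exact_mem_band D j (by linarith) h1.le⟩

theorem zero_near (k : Fin 4) : ‖(0 : ℂ) - cen D k‖ = D.p := by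
  rw [zero_sub, norm_neg, cen_norm]

/-- base point -/
noncomputable def xb : M5 D := ⟨((0:ℂ), (0:ℂ)^2), by
  have hp := D.hp
  rw [mem_M_iff]
  exact Or.inr ⟨0, exact_mem_band D 0 (by rw [zero_near]; linarith)
    (by rw [zero_near]; linarith)⟩⟩

/-- second base point -/
noncomputable def z1 : ℂ := ((5/4 * D.p : ℝ) : ℂ)

theorem norm_z1 : ‖z1 D‖ = 5/4 * D.p := by
  have hp := D.hp
  rw [z1, Complex.norm_real, Real.norm_of_nonneg (by positivity)]

noncomputable def xc : M5 D := ⟨(z1 D, (z1 D)^2), by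
  have hp := D.hp
  exact exact_M D (by rw [norm_z1]; linarith) (by rw [norm_z1]; linarith)⟩

theorem path_of {R : Set ℂ} (hR : ∀ z ∈ R, (z, z^2) ∈ M5 D) {z w : ℂ} (h : JoinedIn R z w)
    {x y : M5 D} (hx : (x : ℂ × ℂ) = (z, z^2)) (hy : (y : ℂ × ℂ) = (w, w^2)) :
    ∃ p : Path x y, ∀ t, ∃ v ∈ R, (p t : ℂ × ℂ) = (v, v^2) := by
  obtain ⟨γ, hγ⟩ := h
  refine ⟨{ toFun := fun t => ⟨(γ t, (γ t)^2), hR _ (hγ t)⟩
            continuous_toFun := ?_
            source' := ?_
            target' := ?_ }, fun t => ⟨γ t, hγ t, rfl⟩⟩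
  · apply Continuous.subtype_mk
    exact γ.continuous.prodMk (γ.continuous.pow 2)
  · apply Subtype.ext
    simp only [γ.source, hx]
  · apply Subtype.ext
    simp only [γ.target, hy]

/-- the open pieces -/
def Uc (k : Fin 4) : Set (M5 D) := {y | (y : ℂ × ℂ) ∈ Wc D (cen D k)}

def U0 : Set (M5 D) := {y | (y : ℂ × ℂ) ∈ D.W0}

theorem overlap2 (j k : Fin 4) (hjk : j ≠ k) (y : M5 D) (hy : y ∈ Uc D j ∩ Uc D k) :
    ∃ p : Path (xb D) y, ∀ t, p t ∈ Uc D j ∩ Uc D k := by
  have hp := D.hp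
  have h0 : (y : ℂ × ℂ) ∈ Wc D (cen D j) := hy.1
  have h1 : (y : ℂ × ℂ) ∈ Wc D (cen D k) := hy.2
  set R : Set ℂ := Metric.ball (cen D j) (13/10 * D.p) ∩ Metric.ball (cen D k) (13/10 * D.p)
    with hR
  have hmem : ∀ z, z ∈ R ↔ ‖z - cen D j‖ < 13/10 * D.p ∧ ‖z - cen D k‖ < 13/10 * D.p := by
    intro z; simp [hR, dist_eq_norm]
  have hconv : Convex ℝ R := (convex_ball _ _).inter (convex_ball _ _)
  have hz : (y : ℂ × ℂ).1 ∈ R := (hmem _).2 ⟨h0.2, h1.2⟩
  have h00 : (0 : ℂ) ∈ R := (hmem _).2 ⟨by rw [zero_near]; linarith, by rw [zero_near]; linarith⟩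
  have he : (y : ℂ × ℂ).2 = (y : ℂ × ℂ).1^2 := by
    obtain ⟨x, hx, hxy⟩ := (mem_Wc_iff D j _).1 ⟨y.2, h0⟩
    have h2 := two_c D hjk (y : ℂ × ℂ).1
    have h3 := h1.2
    have h4 := Pc_norm D (cen D j) x
    rw [hxy] at h4
    have h5 : D.p/10 ≤ |x.2| := by linarith
    have h6 := Pc_exact D (c := cen D j) h5
    rw [hxy] at h6
    exact h6
  have hj : JoinedIn R 0 (y : ℂ × ℂ).1 := (hconv.isPathConnected ⟨_, h00⟩).joinedIn _ h00 _ hz
  obtain ⟨p, hpp⟩ := path_of D
    (fun z hz => (exact_lens D hjk ((hmem z).1 hz).1 ((hmem z).1 hz).2).1) hj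
    (x := xb D) (y := y) rfl (Prod.ext rfl he)
  refine ⟨p, fun t => ?_⟩
  obtain ⟨v, hv, hvp⟩ := hpp t
  have := exact_lens D hjk ((hmem v).1 hv).1 ((hmem v).1 hv).2
  constructor
  · change (p t : ℂ × ℂ) ∈ Wc D (cen D j)
    rw [hvp]; exact this.2.1
  · change (p t : ℂ × ℂ) ∈ Wc D (cen D k)
    rw [hvp]; exact this.2.2

/-- the annular overlap region -/
def R1 : Set ℂ := {z | 6/5 * D.p < ‖z‖ ∧ ∃ k, ‖z - cen D k‖ < 13/10 * D.p}

theorem R1_of_small {z : ℂ} (h1 : 6/5 * D.p < ‖z‖) (h2 : ‖z‖ ≤ 5/4 * D.p) : z ∈ R1 D :=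
  ⟨h1, cen_cover D h2⟩

theorem R1_joined {w : ℂ} (hw : w ∈ R1 D) : JoinedIn (R1 D) (z1 D) w := by
  have hp := D.hp
  obtain ⟨h1, k, hk⟩ := hw
  set m := ‖w‖ with hm
  have hm0 : 0 < m := lt_trans (by positivity) h1
  have hw' : (m : ℂ) * cis (Complex.arg w) = w := Complex.norm_mul_exp_arg_mul_I w
  have j1 : JoinedIn (R1 D) (z1 D) (z1 D * cis (Complex.arg w)) := by
    refine JoinedIn.ofLine (f := fun t : ℝ => z1 D * cis (t * Complex.arg w)) ?_ ?_ ?_ ?_
    · apply Continuous.continuousOn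
      exact continuous_const.mul (cis_continuous.comp (by fun_prop))
    · simp [cis_zero]
    · simp
    · rintro _ ⟨t, -, rfl⟩
      apply R1_of_small
      · simp only
        rw [norm_mul, norm_cis, mul_one, norm_z1]; linarith
      · simp only
        rw [norm_mul, norm_cis, mul_one, norm_z1]
  have j2 : JoinedIn (R1 D) (z1 D * cis (Complex.arg w)) w := by
    refine JoinedIn.ofLine (f := fun t : ℝ =>
      (((1 - t) * (5/4 * D.p) + t * m : ℝ) : ℂ) * cis (Complex.arg w)) ?_ ?_ ?_ ?_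
    · apply Continuous.continuousOn
      exact (Complex.continuous_ofReal.comp (by fun_prop)).mul continuous_const
    · simp [z1]
    · simp [hw']
    · rintro _ ⟨t, ht, rfl⟩
      have t0 : 0 ≤ t := ht.1
      have t1 : 0 ≤ 1 - t := by linarith [ht.2]
      set n := (1 - t) * (5/4 * D.p) + t * m with hn
      have h3 : 6/5 * D.p < n := by
        rcases eq_or_lt_of_le t0 with h | h
        · rw [hn, ← h]; linarith
        · have a1 : t * (6/5 * D.p) < t * m := mul_lt_mul_of_pos_left h1 h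
          have a2 : (1 - t) * (6/5 * D.p) ≤ (1 - t) * (5/4 * D.p) :=
            mul_le_mul_of_nonneg_left (by linarith) t1
          linarith
      have hnn : ‖(n : ℂ) * cis (Complex.arg w)‖ = n := by
        rw [norm_mul, norm_cis, mul_one, Complex.norm_real, Real.norm_of_nonneg (by linarith)]
      simp only
      rcases le_total m (5/4 * D.p) with hle | hle
      · apply R1_of_small
        · rw [hnn]; exact h3
        · rw [hnn, hn]
          have : t * m ≤ t * (5/4 * D.p) := mul_le_mul_of_nonneg_left hle t0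
          linarith
      · refine ⟨by rw [hnn]; exact h3, k, ?_⟩
        have hnm : n ≤ m := by
          have : (1 - t) * (5/4 * D.p) ≤ (1 - t) * m := mul_le_mul_of_nonneg_left hle t1
          rw [hn]; linarith
        have hconv : Convex ℝ (Metric.ball (cen D k) (13/10 * D.p)) := convex_ball _ _
        have m0 : (0 : ℂ) ∈ Metric.ball (cen D k) (13/10 * D.p) := by
          rw [Metric.mem_ball, dist_eq_norm, zero_near]; linarith
        have m1 : w ∈ Metric.ball (cen D k) (13/10 * D.p) := by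
          rw [Metric.mem_ball, dist_eq_norm]; exact hk
        have hq0 : 0 ≤ n / m := div_nonneg (by linarith) hm0.le
        have hq1 : 0 ≤ 1 - n / m := by
          rw [sub_nonneg, div_le_one hm0]; exact hnm
        have := hconv m0 m1 hq1 hq0 (by ring)
        rw [Metric.mem_ball, dist_eq_norm] at this
        have e : (1 - n / m) • (0 : ℂ) + (n / m) • w = (n : ℂ) * cis (Complex.arg w) := by
          rw [smul_zero, zero_add, Complex.real_smul]
          have hm1 : (m : ℂ) ≠ 0 := by exact_mod_cast hm0.ne'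
          have hw2 : cis (Complex.arg w) = w / m := by
            rw [eq_div_iff hm1, mul_comm]; exact hw'
          rw [hw2]
          push_cast
          field_simp
        rw [e] at this
        exact this
  exact j1.trans j2

theorem exactR1 {z : ℂ} (hz : z ∈ R1 D) :
    (z, z^2) ∈ M5 D ∧ (z, z^2) ∈ D.W0 ∧ ∃ k, (z, z^2) ∈ Wc D (cen D k) := by
  have hp := D.hp
  obtain ⟨h0, k, hk⟩ := hz
  have h1 := norm_le_of_near D (cen_norm D k) hk.le
  refine ⟨exact_M D h0.le (by linarith), ?_, k, ?_, hk⟩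
  · change 36/25 * D.p^2 < ‖z^2‖
    rw [norm_pow]
    nlinarith
  · simp only
    rw [norm_pow]
    have := norm_nonneg z
    nlinarith

theorem overlap1 (y : M5 D) (hy : y ∈ U0 D ∩ ⋃ k, Uc D k) :
    ∃ p : Path (xc D) y, ∀ t, p t ∈ U0 D ∩ ⋃ k, Uc D k := by
  have hp := D.hp
  have h0 : (y : ℂ × ℂ) ∈ D.W0 := hy.1
  obtain ⟨k, hk⟩ := mem_iUnion.1 hy.2
  have h1 : (y : ℂ × ℂ) ∈ Wc D (cen D k) := hk
  have he := exact_low D y.2 h0 h1.1
  have hR : (y : ℂ × ℂ).1 ∈ R1 D := by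
    refine ⟨?_, k, h1.2⟩
    have h2 : 36/25 * D.p^2 < ‖(y : ℂ × ℂ).2‖ := h0
    rw [he, norm_pow] at h2
    apply lt_of_pow_lt_pow_left₀ 2 (norm_nonneg _)
    nlinarith
  have hj := R1_joined D hR
  obtain ⟨p, hpp⟩ := path_of D (fun z hz => (exactR1 D hz).1) hj (x := xc D) (y := y) rfl
    (Prod.ext rfl he)
  refine ⟨p, fun t => ?_⟩
  obtain ⟨v, hv, hvp⟩ := hpp t
  constructor
  · change (p t : ℂ × ℂ) ∈ D.W0
    rw [hvp]; exact (exactR1 D hv).2.1
  · obtain ⟨j, hj⟩ := (exactR1 D hv).2.2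
    refine mem_iUnion.2 ⟨j, ?_⟩
    change (p t : ℂ × ℂ) ∈ Wc D (cen D j)
    rw [hvp]; exact hj

theorem hM0 : ∀ x : ℝ × ℝ, |x.2| < D.r0 → Ph 0 A0 D.B0 x ∈ M5 D := fun _ hx =>
  P0_mem D (le_of_lt hx)

theorem hMc (k : Fin 4) : ∀ x : ℝ × ℝ, |x.2| < 13/10 * D.p →
    PhC (cen D k) (fun a => a) D.g x ∈ M5 D := fun _ hx => Pc_mem D k (le_of_lt hx)

/-- outer band -/
noncomputable def b0 : St D.r0 → M5 D := bm 0 A0 D.B0 D.r0 (M5 D) (hM0 D)

/-- crosscap band -/
noncomputable def bc (k : Fin 4) : St (13/10 * D.p) → M5 D :=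
  bmC (cen D k) (fun a => a) D.g (13/10 * D.p) (M5 D) (hMc D k)

theorem b0_continuous : Continuous (b0 D) := bm_continuous D.prof0 (hM0 D)

theorem bc_continuous (k : Fin 4) : Continuous (bc D k) := bmC_continuous (profc D) (hMc D k)

theorem b0_tau (s : St D.r0) : b0 D (tau _ s) = b0 D s := bm_tau D.prof0 (hM0 D) s

theorem bc_tau (k : Fin 4) (s : St (13/10 * D.p)) : bc D k (tau _ s) = bc D k s :=
  bmC_tau (profc D) (hMc D k) s

theorem exists_exact0 {y : M5 D} (h : (y : ℂ × ℂ) ∈ D.W0) : ∃ s : St D.r0, b0 D s = y := by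
  obtain ⟨x, hx, hxy⟩ := (mem_W0_iff D _).1 ⟨y.2, h⟩
  exact ⟨⟨x, hx⟩, Subtype.ext hxy⟩

theorem exists_exactc (k : Fin 4) {y : M5 D} (h : (y : ℂ × ℂ) ∈ Wc D (cen D k)) :
    ∃ s : St (13/10 * D.p), bc D k s = y := by
  obtain ⟨x, hx, hxy⟩ := (mem_Wc_iff D k _).1 ⟨y.2, h⟩
  exact ⟨⟨x, hx⟩, Subtype.ext hxy⟩

theorem xb_mem (k : Fin 4) : (xb D : ℂ × ℂ) ∈ Wc D (cen D k) := by
  have hp := D.hp
  constructor
  · change ‖(0:ℂ)^2‖ < 9 * D.p^2
    rw [norm_pow, norm_zero]; norm_num; positivity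
  · change ‖(0:ℂ) - cen D k‖ < _
    rw [zero_near]; linarith

theorem z1_R1 : z1 D ∈ R1 D := by
  have hp := D.hp
  exact R1_of_small D (by rw [norm_z1]; linarith) (by rw [norm_z1])

theorem M_pathConnected : PathConnectedSpace (M5 D) := by
  have h0 : PathConnectedSpace (St D.r0) := by
    have := St_simply D.r0_pos; infer_instance
  have h1 : PathConnectedSpace (St (13/10 * D.p)) := by
    have := St_simply (profc D).rho_pos; infer_instance
  have keyc : ∀ k (y : M5 D), (y : ℂ × ℂ) ∈ Wc D (cen D k) → Joined (xb D) y := by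
    intro k y h
    obtain ⟨s, hs⟩ := exists_exactc D k (xb_mem D k)
    obtain ⟨s', hs'⟩ := exists_exactc D k h
    rw [← hs, ← hs']
    exact ⟨(PathConnectedSpace.somePath s s').map (bc_continuous D k)⟩
  have key : ∀ y : M5 D, Joined (xb D) y := by
    intro y
    rcases cover D y.2 with h | ⟨k, h⟩
    · obtain ⟨-, g1, k, g2⟩ := exactR1 D (z1_R1 D)
      refine (keyc k (xc D) g2).trans ?_
      obtain ⟨s, hs⟩ := exists_exact0 D (y := xc D) g1
      obtain ⟨s', hs'⟩ := exists_exact0 D h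
      rw [← hs, ← hs']
      exact ⟨(PathConnectedSpace.somePath s s').map (b0_continuous D)⟩
    · exact keyc k y h
  exact { nonempty := ⟨xb D⟩, joined := fun x y => (key x).symm.trans (key y) }

/-- lift of the outer band to `Ec` -/
theorem lift_Ec_b0 {c : ℂ} (hc : ‖c‖ = D.p) : ∃ u : St D.r0 → ℂ, Continuous u ∧
    (∀ s, (b0 D s, u s) ∈ Ec D c) ∧ ∀ s, u (tau _ s) = -u s := by
  refine ⟨fun x => cis x.1.1 * rt (cis (-(2 * x.1.1)) * OmC c (D.P0 x.1)), ?_, ?_, ?_⟩
  · have h1 : Continuous (fun x : St D.r0 => cis x.1.1) := cis_continuous.comp (by fun_prop)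
    have h2 : Continuous (fun x : St D.r0 => cis (-(2 * x.1.1)) * OmC c (D.P0 x.1)) :=
      (cis_continuous.comp (by fun_prop)).mul
        ((OmC_continuous c).comp (D.P0_continuous.comp continuous_subtype_val))
    apply h1.mul
    rw [continuous_iff_continuousAt]
    intro x
    exact (rt_continuousAt (outer_slit D hc x.2)).comp
      (f := fun x : St D.r0 => cis (-(2 * x.1.1)) * OmC c (D.P0 x.1)) h2.continuousAt
  · intro x
    change (cis x.1.1 * rt (cis (-(2 * x.1.1)) * OmC c (D.P0 x.1)))^2 = OmC c (D.P0 x.1)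
    rw [mul_pow, rt_sq, ← cis_two_mul, ← mul_assoc, mul_comm (cis (2 * x.1.1)), cis_neg_mul, one_mul]
  · intro x
    have h1 : D.P0 (tau _ x).1 = D.P0 x.1 := D.prof0.flip x.1
    have h2 : (tau _ x).1.1 = x.1.1 + Real.pi := rfl
    simp only
    rw [h1, h2, cis_add_pi]
    have h3 : cis (-(2 * (x.1.1 + Real.pi))) = cis (-(2 * x.1.1)) := by
      have e : -(2 * x.1.1) = -(2 * (x.1.1 + Real.pi)) + Real.pi + Real.pi := by ring
      rw [e, cis_add_pi, cis_add_pi, neg_neg]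
    rw [h3]; ring

theorem lift_Ec_bc (k : Fin 4) : ∃ u : St (13/10 * D.p) → ℂ, Continuous u ∧
    (∀ s, (bc D k s, u s) ∈ Ec D (cen D k)) ∧ ∀ s, u (tau _ s) = -u s := by
  refine ⟨fun x => (Real.sqrt (D.g x.1.2) : ℂ) * cis x.1.1, ?_, ?_, ?_⟩
  · have h1 : Continuous (fun x : St (13/10 * D.p) => cis x.1.1) :=
      cis_continuous.comp (by fun_prop)
    have h2 : Continuous (fun x : St (13/10 * D.p) => (Real.sqrt (D.g x.1.2) : ℂ)) := by
      apply Complex.continuous_ofReal.comp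
      apply Real.continuous_sqrt.comp
      exact D.hgs.continuous.comp (by fun_prop)
    exact h2.mul h1
  · intro x
    change ((Real.sqrt (D.g x.1.2) : ℂ) * cis x.1.1)^2
      = OmC (cen D k) (PhC (cen D k) (fun a => a) D.g x.1)
    rw [OmC_PhC, mul_pow, ← cis_two_mul]
    congr 1
    have := Real.sq_sqrt (D.hgp x.1.2).le
    exact_mod_cast this
  · intro x
    have h2 : (tau _ x).1.1 = x.1.1 + Real.pi := rfl
    have h3 : (tau _ x).1.2 = -x.1.2 := rfl
    simp only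
    rw [h2, h3, D.hge, cis_add_pi]
    ring

theorem lift_Ec_bother {j k : Fin 4} (hjk : j ≠ k) :
    ∃ u : St (13/10 * D.p) → ℂ, Continuous u ∧
    (∀ s, (bc D j s, u s) ∈ Ec D (cen D k)) ∧ ∀ s, u (tau _ s) = u s := by
  have hne := fun x : St (13/10 * D.p) => (other_slit D hjk x.2).1
  set c := cen D k with hc
  set c' := cen D j with hc'
  refine ⟨fun x => ((Pc D c' x.1).1 - c) *
    rt (OmC c (Pc D c' x.1) / ((Pc D c' x.1).1 - c)^2), ?_, ?_, ?_⟩
  · have h0 : Continuous (fun x : St (13/10 * D.p) => Pc D c' x.1) :=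
      (Pc_continuous D _).comp continuous_subtype_val
    have h1 : Continuous (fun x : St (13/10 * D.p) => (Pc D c' x.1).1 - c) :=
      (continuous_fst.comp h0).sub continuous_const
    have h2 : Continuous (fun x : St (13/10 * D.p) =>
        OmC c (Pc D c' x.1) / ((Pc D c' x.1).1 - c)^2) := by
      apply ((OmC_continuous c).comp h0).div (h1.pow 2)
      intro x
      exact pow_ne_zero 2 (hne x)
    apply h1.mul
    rw [continuous_iff_continuousAt]
    intro x
    exact (rt_continuousAt (other_slit D hjk x.2).2).comp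
      (f := fun x : St (13/10 * D.p) => OmC c (Pc D c' x.1) / ((Pc D c' x.1).1 - c)^2)
      h2.continuousAt
  · intro x
    change (((Pc D c' x.1).1 - c) * rt (OmC c (Pc D c' x.1) / ((Pc D c' x.1).1 - c)^2))^2
      = OmC c (Pc D c' x.1)
    rw [mul_pow, rt_sq]
    have := hne x
    field_simp
  · intro x
    have h1 : Pc D c' (tau _ x).1 = Pc D c' x.1 := (profc D).flip x.1
    simp only
    rw [h1]

theorem lift_E0_bc (k : Fin 4) :
    ∃ u : St (13/10 * D.p) → ℂ × ℝ, Continuous u ∧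
    (∀ s, (bc D k s, u s) ∈ E0 D) ∧ ∀ s, u (tau _ s) = u s := by
  set c := cen D k with hc
  refine ⟨fun x => ((D.χ1 (Pc D c x.1) : ℂ) * (Pc D c x.1).1, D.χ2 (Pc D c x.1)), ?_, ?_, ?_⟩
  · have h0 : Continuous (fun x : St (13/10 * D.p) => Pc D c x.1) :=
      (Pc_continuous D _).comp continuous_subtype_val
    exact ((Complex.continuous_ofReal.comp (D.χ1_continuous.comp h0)).mul
      (continuous_fst.comp h0)).prodMk (D.χ2_continuous.comp h0)
  · intro x
    have hW := ((mem_Wc_iff D k (Pc D c x.1)).2 ⟨x.1, x.2, rfl⟩)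
    have he := (χ1_exact D hW.1 hW.2.1).1
    refine ⟨he.symm, rfl, ?_⟩
    change (D.χ1 (Pc D c x.1) : ℂ) * (Pc D c x.1).1 * (D.χ2 (Pc D c x.1) : ℂ)
      = (D.χ2 (Pc D c x.1) : ℂ) * ((D.χ1 (Pc D c x.1) : ℂ) * (Pc D c x.1).1)
    ring
  · intro x
    have h1 : Pc D c (tau _ x).1 = Pc D c x.1 := (profc D).flip x.1
    simp only
    rw [h1]

theorem lift_E0_b0 : ∃ u : St D.r0 → ℂ × ℝ, Continuous u ∧
    (∀ s, (b0 D s, u s) ∈ E0 D) ∧ ∀ s, u (tau _ s) = -u s := by
  have hBpos : ∀ x : St D.r0, 0 < D.B0 x.1.2 := fun x => D.prof0.pos _ (le_of_lt x.2)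
  refine ⟨fun x => (((D.χ1 (D.P0 x.1) * Real.sqrt (D.B0 x.1.2) : ℝ) : ℂ) * cis x.1.1,
    D.χ2 (D.P0 x.1) * (A0 x.1.2 / Real.sqrt (D.B0 x.1.2))), ?_, ?_, ?_⟩
  · have h0 : Continuous (fun x : St D.r0 => D.P0 x.1) :=
      D.P0_continuous.comp continuous_subtype_val
    have hs : Continuous (fun x : St D.r0 => x.1.2) := by fun_prop
    have h1 : Continuous (fun x : St D.r0 => Real.sqrt (D.B0 x.1.2)) :=
      Real.continuous_sqrt.comp (D.prof0.hB.continuous.comp hs)
    have h2 : Continuous (fun x : St D.r0 => A0 x.1.2) := D.prof0.hA.continuous.comp hs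
    have h3 : Continuous (fun x : St D.r0 => cis x.1.1) := cis_continuous.comp (by fun_prop)
    refine Continuous.prodMk ((Complex.continuous_ofReal.comp
      ((D.χ1_continuous.comp h0).mul h1)).mul h3) ((D.χ2_continuous.comp h0).mul (h2.div h1 ?_))
    intro x
    exact (Real.sqrt_pos.2 (hBpos x)).ne'
  · intro x
    set B := D.B0 x.1.2 with hB
    set A := A0 x.1.2 with hA
    have hsB : 0 < Real.sqrt B := Real.sqrt_pos.2 (hBpos x)
    have hsq : Real.sqrt B ^ 2 = B := Real.sq_sqrt (hBpos x).le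
    have hAB : D.χ2 (D.P0 x.1) ≠ 0 → A^2 = B := by
      intro hne
      have hp2 : 0 < D.p^2 := pow_pos D.hp 2
      have hn : ‖(D.P0 x.1).2‖ < 4 * D.p^2 := by
        by_contra h
        push Not at h
        exact hne (max_eq_left (by linarith))
      have h1 := D.P0_exact (le_of_lt x.2) (by linarith)
      rw [D.P0_fst, D.P0_snd, mul_pow, ← cis_two_mul] at h1
      have h2 := mul_right_cancel₀ (cis_ne_zero _) h1
      have h3 : B = A^2 := by exact_mod_cast h2
      exact h3.symm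
    have hP1 : ((b0 D x : ℂ × ℂ)).1 = A * cis x.1.1 := D.P0_fst x.1
    have hP2 : ((b0 D x : ℂ × ℂ)).2 = B * cis (2 * x.1.1) := D.P0_snd x.1
    have hbP : ((b0 D x : ℂ × ℂ)) = D.P0 x.1 := rfl
    refine ⟨?_, ?_, ?_⟩
    · change (((D.χ1 (D.P0 x.1) * Real.sqrt B : ℝ) : ℂ) * cis x.1.1)^2
        = (D.χ1 (D.P0 x.1) : ℂ)^2 * (b0 D x : ℂ × ℂ).2
      rw [hP2, mul_pow, ← cis_two_mul, ← mul_assoc]
      congr 1
      have : (D.χ1 (D.P0 x.1) * Real.sqrt B)^2 = D.χ1 (D.P0 x.1)^2 * B := by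
        rw [mul_pow, hsq]
      exact_mod_cast this
    · change (D.χ2 (D.P0 x.1) * (A / Real.sqrt B))^2 = D.χ2 (D.P0 x.1)^2
      by_cases h : D.χ2 (D.P0 x.1) = 0
      · rw [h]; ring
      · rw [mul_pow, div_pow, hsq, hAB h, div_self (hBpos x).ne', mul_one]
    · change ((D.χ1 (D.P0 x.1) * Real.sqrt B : ℝ) : ℂ) * cis x.1.1 * (D.χ2 (D.P0 x.1) : ℂ)
        = ((D.χ2 (D.P0 x.1) * (A / Real.sqrt B) : ℝ) : ℂ) *
          ((D.χ1 (D.P0 x.1) : ℂ) * (b0 D x : ℂ × ℂ).1)
      rw [hP1]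
      by_cases h : D.χ2 (D.P0 x.1) = 0
      · rw [h]; simp
      · have h5 : A / Real.sqrt B * A = Real.sqrt B := by
          rw [div_mul_eq_mul_div, div_eq_iff hsB.ne', ← pow_two, ← pow_two, hsq]
          exact hAB h
        have h6 : (((A / Real.sqrt B * A : ℝ)) : ℂ) = ((Real.sqrt B : ℝ) : ℂ) := by rw [h5]
        push_cast at h6 ⊢
        linear_combination (-(D.χ2 (D.P0 x.1) : ℂ) * (D.χ1 (D.P0 x.1) : ℂ) * cis x.1.1) * h6
  · intro x
    have h1 : D.P0 (tau _ x).1 = D.P0 x.1 := D.prof0.flip x.1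
    have h2 : (tau _ x).1.1 = x.1.1 + Real.pi := rfl
    have h3 : (tau _ x).1.2 = -x.1.2 := rfl
    simp only
    rw [h1, h2, h3, cis_add_pi, D.prof0.even, D.prof0.odd]
    apply Prod.ext
    · simp
    · simp [neg_div]

/-- the fundamental group has exactly 32 homomorphisms to the group with two elements -/
theorem card_hom : Nat.card (FundamentalGroup (M5 D) (xb D) →* Multiplicative (ZMod 2)) = 2^5 := by
  have hpc := M_pathConnected D
  have i0 := St_simply D.r0_pos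
  have i1 := St_simply (profc D).rho_pos
  let s0 : St D.r0 := ⟨(0, 0), by simpa using D.r0_pos⟩
  let s1 : St (13/10 * D.p) := ⟨(0, 0), by simpa using D.hp⟩
  set q0 := PathConnectedSpace.somePath s0 (tau _ s0) with hq0
  set q1 := PathConnectedSpace.somePath s1 (tau _ s1) with hq1
  obtain ⟨α0, hα0⟩ := (E0_double D).exists_hom (xb D)
  choose β hβ using fun k => (Ec_double D k).exists_hom (xb D)
  refine card_hom_eq5 (bandLoop (xb D) (b0_continuous D) q0 (b0_tau D s0).symm)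
    (fun k => bandLoop (xb D) (bc_continuous D k) q1 (bc_tau D k s1).symm) ?_ α0 β ?_ ?_ ?_ ?_ ?_
  · intro α h0 h1
    apply hom_eq_one
    intro l
    set w := wtOfHom (xb D) α with hw
    have e0 : w.w (q0.map (b0_continuous D)) = 1 := by
      rw [hw, wt_bandLoop (xb D) (b0_continuous D) q0 (b0_tau D s0).symm, h0]
    have e1 : ∀ k, w.w (q1.map (bc_continuous D k)) = 1 := by
      intro k
      rw [hw, wt_bandLoop (xb D) (bc_continuous D k) q1 (bc_tau D k s1).symm, h1]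
    obtain ⟨f0, hf0⟩ := band_pot (c := 0) D.prof0 D.W0_open (mem_W0_iff D) (hM0 D) w s0 q0 e0
    choose f hf using fun k => band_potC (c := cen D k) (profc D) (Wc_open D _) (mem_Wc_iff D k)
      (hMc D k) w s1 q1 (e1 k)
    have hUo : ∀ k, IsOpen (Uc D k) := fun k => (Wc_open D _).preimage continuous_subtype_val
    have hU0 : IsOpen (U0 D) := D.W0_open.preimage continuous_subtype_val
    obtain ⟨F, hF⟩ := glue w (Uc D) hUo (xb D) f hf (fun j k hjk y hy => overlap2 D j k hjk y hy)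
    obtain ⟨G, hG⟩ := glue w (fun b : Bool => if b then U0 D else ⋃ k, Uc D k)
      (by
        intro b
        cases b
        · exact isOpen_iUnion hUo
        · exact hU0) (xc D) (fun b => if b then f0 else F)
      (by
        intro b
        cases b
        · exact hF
        · exact hf0)
      (by
        intro b b' hb y hy
        cases b <;> cases b'
        · exact absurd rfl hb
        · obtain ⟨p, hp⟩ := overlap1 D y ⟨hy.2, hy.1⟩
          exact ⟨p, fun t => ⟨(hp t).2, (hp t).1⟩⟩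
        · exact overlap1 D y hy
        · exact absurd rfl hb)
    rw [hG _ _ l]
    · simp
    · intro t
      rcases cover D (l t).2 with h | ⟨k, h⟩
      · exact mem_iUnion.2 ⟨true, h⟩
      · exact mem_iUnion.2 ⟨false, mem_iUnion.2 ⟨k, h⟩⟩
  · obtain ⟨u, hu, hE, hf⟩ := lift_E0_b0 D
    exact (bandLoop_eval (E0_double D) hα0 (b0_continuous D) q0 _ hu hE).2 (hf s0)
  · intro k
    obtain ⟨u, hu, hE, hf⟩ := lift_E0_bc D k
    exact (bandLoop_eval (E0_double D) hα0 (bc_continuous D k) q1 _ hu hE).1 (hf s1)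
  · intro k
    obtain ⟨u, hu, hE, hf⟩ := lift_Ec_b0 D (cen_norm D k)
    exact (bandLoop_eval (Ec_double D k) (hβ k) (b0_continuous D) q0 _ hu hE).2 (hf s0)
  · intro k
    obtain ⟨u, hu, hE, hf⟩ := lift_Ec_bc D k
    exact (bandLoop_eval (Ec_double D k) (hβ k) (bc_continuous D k) q1 _ hu hE).2 (hf s1)
  · intro j k hjk
    obtain ⟨u, hu, hE, hf⟩ := lift_Ec_bother D hjk
    exact (bandLoop_eval (Ec_double D k) (hβ k) (bc_continuous D j) q1 _ hu hE).1 (hf s1)

end Pool.Agent.H105Z.N5
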