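import Pool.Agent.H105Z.N5.F

set_option autoImplicit false

open Set Filter Topology
open scoped Manifold ContDiff

namespace Pool.Agent.H105Z.N5

open Pool.Agent.Helper331

theorem manifold (D : N3D) :
    ∃ (_ : ChartedSpace (EuclideanSpace ℝ (Fin 2)) (M5 D)) (_ : IsManifold (𝓡 2) ∞ (M5 D)),
      ContMDiff (𝓡 2) 𝓘(ℝ, ℂ × ℂ) ∞ (Subtype.val : M5 D → ℂ × ℂ) ∧
      ∀ x : M5 D,
        Function.Injective (mfderiv (𝓡 2) 𝓘(ℝ, ℂ × ℂ) (Subtype.val : M5 D → ℂ × ℂ) x) := by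
  apply exists_manifold
  intro y
  rcases cover D y.2 with h | ⟨k, h⟩
  · exact D.prof0.chart (c := 0) D.W0_open (mem_W0_iff D) y h
  · exact (profc D).chart (c := cen D k) (Wc_open D _) (mem_Wc_iff D k) y h

/-- The surface of Euler characteristic `-3` in four-space. -/
theorem n5_main :
  ∃ (M : Type) (_ : TopologicalSpace M) (_ : ChartedSpace (EuclideanSpace ℝ (Fin 2)) M)
    (_ : IsManifold (𝓡 2) ∞ M) (_ : CompactSpace M) (_ : ConnectedSpace M) (_ : T2Space M)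
    (f : M → EuclideanSpace ℝ (Fin 4)),
    ContMDiff (𝓡 2) 𝓘(ℝ, EuclideanSpace ℝ (Fin 4)) ∞ f ∧
    Topology.IsEmbedding f ∧
    (∀ x : M, Function.Injective (mfderiv (𝓡 2) 𝓘(ℝ, EuclideanSpace ℝ (Fin 4)) f x)) ∧
    (∃ x : M, Nat.card (FundamentalGroup M x →* Multiplicative (ZMod 2)) = 2 ^ 5) ∧
    (∀ (u : EuclideanSpace ℝ (Fin 4)) (c : ℝ),
      IsPreconnected (f ⁻¹' {y : EuclideanSpace ℝ (Fin 4) | c ≤ inner ℝ u y})) ∧
    (∀ (u : EuclideanSpace ℝ (Fin 4)) (c : ℝ),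
      IsPreconnected (f ⁻¹' {y : EuclideanSpace ℝ (Fin 4) | c < inner ℝ u y})) ∧
    (∀ (u : EuclideanSpace ℝ (Fin 4)) (c : ℝ), (∀ x, inner ℝ u (f x) = c) → u = 0) := by
  obtain ⟨D⟩ := exists_N3D
  obtain ⟨hC, hM, hval, hmf⟩ := manifold D
  have hcomp : CompactSpace (M5 D) := isCompact_iff_compactSpace.1 (M_compact D)
  have hpc := M_pathConnected D
  have hconn : ConnectedSpace (M5 D) := inferInstance
  have hpre : ∀ (S : Set (ℂ × ℂ)), IsPreconnected {y | y ∈ M5 D ∧ y ∈ S} →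
      IsPreconnected {m : M5 D | (m : ℂ × ℂ) ∈ S} := by
    intro S hS
    rw [← Topology.IsInducing.subtypeVal.isPreconnected_image]
    convert hS using 1
    ext y
    constructor
    · rintro ⟨m, hm, rfl⟩; exact ⟨m.2, hm⟩
    · rintro ⟨h1, h2⟩; exact ⟨⟨y, h1⟩, h2, rfl⟩
  refine ⟨M5 D, inferInstance, hC, hM, hcomp, hconn, inferInstance, fun m => J4 m, ?_, ?_, ?_, ?_, ?_,
    ?_, ?_⟩
  · exact J4.contDiff.contMDiff.comp hval
  · have hcl : Topology.IsClosedEmbedding (fun m : M5 D => J4 (m : ℂ × ℂ)) :=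
      (J4.continuous.comp continuous_subtype_val).isClosedEmbedding
        (J4_injective.comp Subtype.val_injective)
    exact hcl.isEmbedding
  · intro x
    have h1 : MDifferentiableAt 𝓘(ℝ, ℂ × ℂ) 𝓘(ℝ, EuclideanSpace ℝ (Fin 4)) J4 (x : ℂ × ℂ) :=
      J4.mdifferentiableAt
    have h2 : MDifferentiableAt (𝓡 2) 𝓘(ℝ, ℂ × ℂ) (Subtype.val : M5 D → ℂ × ℂ) x :=
      (hval x).mdifferentiableAt (by simp)
    have h3 := mfderiv_comp x h1 h2
    have h4 : mfderiv (𝓡 2) 𝓘(ℝ, EuclideanSpace ℝ (Fin 4)) (fun m : M5 D => J4 (m : ℂ × ℂ)) x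
      = (mfderiv 𝓘(ℝ, ℂ × ℂ) 𝓘(ℝ, EuclideanSpace ℝ (Fin 4)) J4 (x : ℂ × ℂ)).comp
        (mfderiv (𝓡 2) 𝓘(ℝ, ℂ × ℂ) (Subtype.val : M5 D → ℂ × ℂ) x) := h3
    rw [h4]
    have h5 : mfderiv 𝓘(ℝ, ℂ × ℂ) 𝓘(ℝ, EuclideanSpace ℝ (Fin 4)) J4 (x : ℂ × ℂ) = J4 := by
      rw [mfderiv_eq_fderiv]; exact J4.fderiv
    rw [h5]
    exact J4_injective.comp (hmf x)
  · exact ⟨xb D, card_hom D⟩
  · intro u c
    have h1 := hpre {y | c ≤ ht (u 0) (u 1) (u 2) (u 3) y} (tight_closed D _ _ _ _ c)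
    convert h1 using 1
    ext m
    simp only [mem_preimage, mem_ofPred_eq, inner_J4]
  · intro u c
    have h1 := hpre {y | c < ht (u 0) (u 1) (u 2) (u 3) y} (tight_open D _ _ _ _ c)
    convert h1 using 1
    ext m
    simp only [mem_preimage, mem_ofPred_eq, inner_J4]
  · intro u c h
    obtain ⟨h0, h1, h2, h3⟩ := substantial D (v0 := u 0) (v1 := u 1) (v2 := u 2) (v3 := u 3)
      (c := c) (fun y hy => by rw [← inner_J4]; exact h ⟨y, hy⟩)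
    ext i
    fin_cases i
    · exact h0
    · exact h1
    · exact h2
    · exact h3

end Pool.Agent.H105Z.N5
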